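import Pool.Agent.Lib.Wief.Defs

/-!
# LinD: an integer matrix which is a Gram matrix of few functions modulo `p`

PROOF of `det_dvd`. Lift `V` to an integer matrix `W`, `A = Wᵀ W + p E`. Then `det A` is the determinant of the
block matrix `[p E, Wᵀ; -W, 1]` (Schur complement). In the Leibniz formula every permutation of `ι ⊕ κ` maps at
least `|ι| - |κ|` elements of `ι` to `ι`, and the corresponding entries are divisible by `p`.
`det_ne`: if `|κ| = |ι|` and `V` is injective: transport `V` along an equivalence `κ ≃ ι`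
(`Fintype.card_eq`), then the determinant mod `p` is the square of a unit.
-/

set_option autoImplicit false

open Finset

namespace Wief

private lemma LinD_card {ι κ : Type*} [Fintype ι] [Fintype κ] (σ : Equiv.Perm (ι ⊕ κ)) :
    Fintype.card ι - Fintype.card κ ≤
      (univ.filter fun i : ι => (σ (Sum.inl i)).isLeft = true).card := by
  classical
  have h1 := Finset.card_filter_add_card_filter_not (s := (univ : Finset ι))
    (fun i : ι => (σ (Sum.inl i)).isLeft = true)
  have h2 : (univ.filter fun i : ι => ¬ (σ (Sum.inl i)).isLeft = true).card ≤ Fintype.card κ := by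
    have h3 : ((univ.filter fun i : ι => ¬ (σ (Sum.inl i)).isLeft = true).image
        fun i => σ (Sum.inl i)) ⊆ (univ : Finset κ).image Sum.inr := by
      intro x hx
      rw [Finset.mem_image] at hx
      obtain ⟨i, hi, rfl⟩ := hx
      rw [Finset.mem_filter] at hi
      rcases h4 : σ (Sum.inl i) with y | y
      · rw [h4] at hi
        exact absurd rfl hi.2
      · exact Finset.mem_image_of_mem _ (Finset.mem_univ y)
    have h5 := Finset.card_le_card h3
    have h6 : Function.Injective fun i : ι => σ (Sum.inl i) :=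
      σ.injective.comp Sum.inl_injective
    rw [Finset.card_image_of_injective _ h6,
      Finset.card_image_of_injective _ Sum.inr_injective] at h5
    exact h5
  rw [Finset.card_univ] at h1
  omega

private lemma LinD_blocks {ι κ : Type*} [Fintype ι] [DecidableEq ι] [Fintype κ] [DecidableEq κ]
    (q : ℤ) (E : Matrix ι ι ℤ) (B : Matrix ι κ ℤ) (C : Matrix κ ι ℤ) (D : Matrix κ κ ℤ) :
    q ^ (Fintype.card ι - Fintype.card κ) ∣ (Matrix.fromBlocks (q • E) B C D).det := by
  rw [Matrix.det_apply']
  refine Finset.dvd_sum fun σ _ => Dvd.dvd.mul_left ?_ _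
  rw [Fintype.prod_sum_type]
  refine Dvd.dvd.mul_right ?_ _
  refine (pow_dvd_pow q (LinD_card σ)).trans ?_
  rw [← Finset.prod_const]
  refine (Finset.prod_dvd_prod_of_dvd _
    (fun i => Matrix.fromBlocks (q • E) B C D (σ (Sum.inl i)) (Sum.inl i)) ?_).trans
    (Finset.prod_dvd_prod_of_subset _ _ _ (Finset.filter_subset _ _))
  intro i hi
  rw [Finset.mem_filter] at hi
  rcases h4 : σ (Sum.inl i) with y | y
  · show q ∣ Matrix.fromBlocks (q • E) B C D (Sum.inl y) (Sum.inl i)
    rw [Matrix.fromBlocks_apply₁₁, Matrix.smul_apply, smul_eq_mul]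
    exact dvd_mul_right _ _
  · rw [h4] at hi
    exact absurd hi.2 (by simp)

theorem det_dvd {ι κ : Type*} [Fintype ι] [DecidableEq ι] [Fintype κ] {p : ℕ} (hp : p.Prime)
    (A : Matrix ι ι ℤ) (V : Matrix κ ι (ZMod p))
    (h : A.map (Int.cast : ℤ → ZMod p) = V.transpose * V) :
    (p : ℤ) ^ (Fintype.card ι - Fintype.card κ) ∣ A.det := by
  classical
  have _ := hp
  obtain ⟨f, hf⟩ : ∃ f : ZMod p → ℤ, ∀ x, ((f x : ℤ) : ZMod p) = x :=
    ⟨fun x => (ZMod.intCast_surjective x).choose, fun x => (ZMod.intCast_surjective x).choose_spec⟩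
  have hW : ∀ i j, ∃ e : ℤ, A i j - ((V.map f).transpose * V.map f) i j = p * e := by
    intro i j
    have h1 : (((A i j - ((V.map f).transpose * V.map f) i j : ℤ)) : ZMod p) = 0 := by
      have h2 := congrFun (congrFun h i) j
      rw [Matrix.map_apply] at h2
      rw [Int.cast_sub, h2, sub_eq_zero, Matrix.mul_apply, Matrix.mul_apply, Int.cast_sum]
      refine Finset.sum_congr rfl fun k _ => ?_
      rw [Int.cast_mul, Matrix.transpose_apply, Matrix.transpose_apply, Matrix.map_apply,
        Matrix.map_apply, hf, hf]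
    obtain ⟨e, he⟩ := (CharP.intCast_eq_zero_iff (ZMod p) p _).1 h1
    exact ⟨e, he⟩
  choose E hE using hW
  have h3 : A = (p : ℤ) • (Matrix.of E) - (V.map f).transpose * (-(V.map f)) := by
    ext i j
    rw [Matrix.mul_neg, sub_neg_eq_add, Matrix.add_apply, Matrix.smul_apply, smul_eq_mul,
      Matrix.of_apply, ← hE i j]
    ring
  rw [h3, ← Matrix.det_fromBlocks_one₂₂]
  exact LinD_blocks _ _ _ _ _

theorem det_ne {ι κ : Type*} [Fintype ι] [DecidableEq ι] [Fintype κ] {p : ℕ} (hp : p.Prime)
    (A : Matrix ι ι ℤ) (V : Matrix κ ι (ZMod p))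
    (h : A.map (Int.cast : ℤ → ZMod p) = V.transpose * V)
    (hc : Fintype.card κ = Fintype.card ι) (hV : ∀ x : ι → ZMod p, V.mulVec x = 0 → x = 0) :
    A.det ≠ 0 := by
  have : Fact p.Prime := ⟨hp⟩
  obtain ⟨e⟩ : Nonempty (κ ≃ ι) := Fintype.card_eq.1 hc
  have h1 : ((A.det : ℤ) : ZMod p) = (A.map (Int.cast : ℤ → ZMod p)).det := by
    have h2 := RingHom.map_det (Int.castRingHom (ZMod p)) A
    exact h2
  have h2 : V.transpose * V =
      (V.submatrix e.symm id).transpose * V.submatrix e.symm id := by
    ext i j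
    rw [Matrix.mul_apply, Matrix.mul_apply]
    exact (e.symm.sum_comp fun k => V.transpose i k * V k j).symm
  have h3 : (V.submatrix e.symm id).det ≠ 0 := by
    intro h4
    obtain ⟨v, hv, hv2⟩ := Matrix.exists_mulVec_eq_zero_iff.2 h4
    refine hv (hV v ?_)
    ext k
    have h5 := congrFun hv2 (e k)
    rw [Matrix.mulVec, dotProduct] at h5 ⊢
    simpa using h5
  intro h4
  rw [h4, Int.cast_zero, h, h2, Matrix.det_mul, Matrix.det_transpose] at h1
  exact (mul_ne_zero h3 h3) h1.symm

end Wief
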