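import Pool.Agent.Lib.Wief.Defs
import Pool.Agent.Lib.PNT.Theta

/-!
# Gain: the sum over all primes in (2r, 8r)

PROOF. For `r ≤ m + 3` and `q` odd: `3r + m - (q-1)/2 ≥ 4r - 3 - (q-1)/2 ≥ (8r - q)/2 - 3` (as reals), so the
sum is `≥ (1/2) ∑_q (8r - q) log q - 3 θ(8r)`, and
`∑_{2r<q<8r} (8r - q) log q = ∑_{2r ≤ k < 8r} (θ(k) - θ(2r))` (exchange: `8r - q` is the number of
`k` with `q ≤ k < 8r`). With `θ(k) = (1 + o(1)) k` (`PNT.theta_tendsto`; for `k ≥ 2r` large):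
`≥ ∑_{2r≤k<8r} ((1-ε) k - (1+ε) 2r) ≥ 18 r^2 - C ε r^2 - O(r)`. So the whole sum is
`≥ 9 r^2 - C' ε r^2 - O(r) ≥ 8.9 r^2`.
-/

set_option autoImplicit false

open Finset

namespace Wief

private theorem Gain_diff {a k : ℕ} (h : a ≤ k) :
    ∑ q ∈ (Ioc a k).filter Nat.Prime, Real.log q = Chebyshev.theta k - Chebyshev.theta a := by
  have h0 : ∀ n : ℕ, Chebyshev.theta (n : ℝ) =
      ∑ q ∈ (Ioc 0 n).filter Nat.Prime, Real.log q := fun n => by
    unfold Chebyshev.theta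
    rw [Nat.floor_natCast]
  have h1 : (Ioc 0 k).filter Nat.Prime =
      (Ioc 0 a).filter Nat.Prime ∪ (Ioc a k).filter Nat.Prime := by
    rw [← filter_union, Ioc_union_Ioc_eq_Ioc (Nat.zero_le _) h]
  rw [h0, h0, h1, sum_union]
  · ring
  · refine disjoint_left.2 fun q hq hq' => ?_
    simp only [mem_filter, mem_Ioc] at hq hq'
    omega

private theorem Gain_exch (a b : ℕ) :
    ∑ q ∈ (Ioo a b).filter Nat.Prime, ((b : ℝ) - q) * Real.log q =
      ∑ k ∈ Ico a b, ∑ q ∈ (Ioc a k).filter Nat.Prime, Real.log q := by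
  have h1 : ∀ q ∈ (Ioo a b).filter Nat.Prime, ((b : ℝ) - q) * Real.log q =
      ∑ k ∈ Ico q b, Real.log q := by
    intro q hq
    simp only [mem_filter, mem_Ioo] at hq
    rw [sum_const, Nat.card_Ico, nsmul_eq_mul, Nat.cast_sub hq.1.2.le]
  rw [sum_congr rfl h1]
  refine sum_comm' fun q k => ?_
  simp only [mem_filter, mem_Ioo, mem_Ico, mem_Ioc]
  constructor
  · rintro ⟨⟨⟨h1, h2⟩, h3⟩, h4, h5⟩
    exact ⟨⟨⟨h1, h4⟩, h3⟩, by omega, h5⟩
  · rintro ⟨⟨⟨h1, h4⟩, h3⟩, h6, h5⟩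
    exact ⟨⟨⟨h1, by omega⟩, h3⟩, h4, h5⟩

private theorem Gain_sumk (r : ℕ) :
    ∑ k ∈ Ico (2 * r) (8 * r), (k : ℝ) = 30 * (r : ℝ) ^ 2 - 3 * r := by
  have h : ∀ n : ℕ, ∑ k ∈ range n, (k : ℝ) = (n : ℝ) * (n - 1) / 2 := by
    intro n
    induction n with
    | zero => simp
    | succ n ih =>
      rw [sum_range_succ, ih]
      push_cast
      ring
  rw [sum_Ico_eq_sub _ (by omega : 2 * r ≤ 8 * r), h, h]
  push_cast
  ring

theorem gain : ∃ r0 : ℕ, ∀ r, r0 ≤ r → ∀ m, r ≤ m + 3 →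
    8.9 * (r : ℝ) ^ 2 ≤ ∑ q ∈ (Ioo (2 * r) (8 * r)).filter Nat.Prime,
      ((3 * r + m - (q - 1) / 2 : ℕ) : ℝ) * Real.log q := by
  have hT := PNT.theta_tendsto
  rw [Metric.tendsto_atTop] at hT
  obtain ⟨N, hN⟩ := hT (1 / 840) (by norm_num)
  obtain ⟨N', hN'⟩ := exists_nat_ge N
  refine ⟨max N' 1000, fun r hr m hm => ?_⟩
  have hrN : N' ≤ r := (le_max_left _ _).trans hr
  have hr1 : 1000 ≤ r := (le_max_right _ _).trans hr
  have hrR : (1000 : ℝ) ≤ r := by exact_mod_cast hr1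
  have hth : ∀ k : ℕ, r ≤ k → (1 - 1 / 840) * (k : ℝ) ≤ Chebyshev.theta k ∧
      Chebyshev.theta k ≤ (1 + 1 / 840) * (k : ℝ) := by
    intro k hk
    have hk0 : (0 : ℝ) < k := by
      have : (r : ℝ) ≤ k := by exact_mod_cast hk
      linarith
    have h1 := hN (k : ℝ) (hN'.trans (by exact_mod_cast hrN.trans hk))
    rw [Real.dist_eq, abs_lt] at h1
    obtain ⟨h2, h3⟩ := h1
    have h4 : Chebyshev.theta k = Chebyshev.theta k / k * k := by
      rw [div_mul_cancel₀ _ hk0.ne']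
    constructor
    · rw [h4]
      exact mul_le_mul_of_nonneg_right (by linarith) hk0.le
    · rw [h4]
      exact mul_le_mul_of_nonneg_right (by linarith) hk0.le
  -- termwise
  have h1 : ∀ q ∈ (Ioo (2 * r) (8 * r)).filter Nat.Prime,
      (((8 * r : ℕ) : ℝ) - q) * Real.log q / 2 - 3 * Real.log q ≤
        ((3 * r + m - (q - 1) / 2 : ℕ) : ℝ) * Real.log q := by
    intro q hq
    simp only [mem_filter, mem_Ioo] at hq
    have hlog : 0 ≤ Real.log q := Real.log_nonneg (by exact_mod_cast hq.2.one_lt.le)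
    have h2 : (((8 * r : ℕ) : ℝ) - q) / 2 - 3 ≤ ((3 * r + m - (q - 1) / 2 : ℕ) : ℝ) := by
      have h3 : 8 * r ≤ 2 * (3 * r + m - (q - 1) / 2) + q + 6 := by omega
      have h4 : ((8 * r : ℕ) : ℝ) ≤ 2 * ((3 * r + m - (q - 1) / 2 : ℕ) : ℝ) + q + 6 := by
        exact_mod_cast h3
      linarith
    have h5 := mul_le_mul_of_nonneg_right h2 hlog
    linarith
  have h2 := sum_le_sum h1
  rw [sum_sub_distrib, ← sum_div, Gain_exch, ← mul_sum] at h2
  refine le_trans ?_ h2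
  -- upper bound for the error
  have h3 : ∑ q ∈ (Ioo (2 * r) (8 * r)).filter Nat.Prime, Real.log q ≤
      Chebyshev.theta ((8 * r : ℕ) : ℝ) - Chebyshev.theta ((2 * r : ℕ) : ℝ) := by
    rw [← Gain_diff (by omega : 2 * r ≤ 8 * r)]
    refine sum_le_sum_of_subset_of_nonneg ?_ fun q hq _ => ?_
    · intro q hq
      simp only [mem_filter, mem_Ioo, mem_Ioc] at hq ⊢
      exact ⟨⟨hq.1.1, hq.1.2.le⟩, hq.2⟩
    · simp only [mem_filter] at hq
      exact Real.log_nonneg (by exact_mod_cast hq.2.one_lt.le)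
  have h4 := (hth (8 * r) (by omega)).2
  have h5 := hth (2 * r) (by omega)
  have h5' : 0 ≤ Chebyshev.theta ((2 * r : ℕ) : ℝ) := Chebyshev.theta_nonneg _
  -- main term
  have h6 : ∀ k ∈ Ico (2 * r) (8 * r),
      (1 - 1 / 840) * (k : ℝ) - (1 + 1 / 840) * (2 * r) ≤
        ∑ q ∈ (Ioc (2 * r) k).filter Nat.Prime, Real.log q := by
    intro k hk
    rw [mem_Ico] at hk
    rw [Gain_diff hk.1]
    have h7 := (hth k (by omega)).1
    have h8 := h5.2
    push_cast at h8 ⊢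
    linarith
  have h7 := sum_le_sum h6
  rw [sum_sub_distrib, ← mul_sum, Gain_sumk, sum_const, Nat.card_Ico, nsmul_eq_mul,
    Nat.cast_sub (by omega : 2 * r ≤ 8 * r)] at h7
  push_cast at h3 h4 h5 h5' h7 ⊢
  nlinarith [mul_le_mul_of_nonneg_right hrR (by linarith : (0 : ℝ) ≤ r)]

end Wief
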