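import Pool.Agent.Lib.Wief.BinV

/-!
# NonV: the square matrix `V` is injective modulo `p` (Cauchy-Vandermonde)

PROOF. Let `V x = 0`, `x = (x_j, y_l)`. In `F[X]`, `F = ZMod p`, put `b_l = 2^(l+1) ∏_{i<l} (X + c_l - i) / l!`
(`l < m ≤ r < p`, so `l!` is a unit and `b_l(t) = 2^(l+1) C(t + c_l, l)` for the natural numbers `t`) and
`P = ∑_j x_j s_j ∏_{k≠j} (X + k) + (∑_l y_l b_l) ∏_k (X + k)`, `k` in `[0, 2r)`. Then `deg P < 2r + m` and
`P(t) = ∏_k (t + k) · (V x)_u = 0` for `t = 2(u+1)`, `u < MM p r = 2r + m`: these `2r + m` elements of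
`F` are distinct (`t ≤ p - 1`) and `t + k` is never `0` (`t + k ≤ p - 1 - 2r + 2r - 1 < p`). So `P = 0`
(`Polynomial.eq_zero_of_natDegree_lt_card_of_eval_eq_zero`). At `X = -j`:
`x_j s_j ∏_{k≠j} (k - j) = 0`; `s_j = lcm(1..mx)`, `mx < p`, is prime to `p`; so `x_j = 0`. Then
`∑_l y_l b_l = 0` (cancel the monic product) and the `b_l` have degree exactly `l`: `y = 0`
(largest `l` with `y_l ≠ 0`).
-/

set_option autoImplicit false

open Finset

namespace Wief

section aux

variable {F : Type*} [Field F]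

/-- `2^(l+1) (X+c)(X+c-1)...(X+c-l+1) / l!` -/
private noncomputable def NonV_b (F : Type*) [Field F] (c l : ℕ) : Polynomial F :=
  Polynomial.C ((2 : F) ^ (l + 1) * ((l.factorial : ℕ) : F)⁻¹) *
    (descPochhammer F l).comp (Polynomial.X + Polynomial.C (c : F))

private lemma NonV_b_natDegree (c l : ℕ) : (NonV_b F c l).natDegree ≤ l := by
  unfold NonV_b
  refine (Polynomial.natDegree_C_mul_le _ _).trans ?_
  refine Polynomial.natDegree_comp_le.trans ?_
  rw [descPochhammer_natDegree]
  have h : (Polynomial.X + Polynomial.C (c : F)).natDegree ≤ 1 := by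
    rw [Polynomial.natDegree_X_add_C]
  nlinarith

private lemma NonV_b_eval (c l t : ℕ) (hl : ((l.factorial : ℕ) : F) ≠ 0) :
    (NonV_b F c l).eval (t : F) = 2 ^ (l + 1) * (((t + c).choose l : ℕ) : F) := by
  unfold NonV_b
  rw [Polynomial.eval_mul, Polynomial.eval_C, Polynomial.eval_comp, Polynomial.eval_add,
    Polynomial.eval_X, Polynomial.eval_C]
  have h1 : ((t : F) + (c : F)) = ((t + c : ℕ) : F) := by push_cast; rfl
  rw [h1, descPochhammer_eval_eq_descFactorial, Nat.descFactorial_eq_factorial_mul_choose]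
  push_cast
  field_simp

private lemma NonV_b_coeff (c l : ℕ) (hl : ((l.factorial : ℕ) : F) ≠ 0) (h2 : (2 : F) ≠ 0) :
    (NonV_b F c l).coeff l ≠ 0 := by
  unfold NonV_b
  rw [Polynomial.coeff_C_mul]
  have hm : ((descPochhammer F l).comp (Polynomial.X + Polynomial.C (c : F))).Monic :=
    (monic_descPochhammer F l).comp_X_add_C _
  have hd : ((descPochhammer F l).comp (Polynomial.X + Polynomial.C (c : F))).natDegree = l := by
    rw [Polynomial.natDegree_comp, descPochhammer_natDegree, Polynomial.natDegree_X_add_C, mul_one]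
  have hc : ((descPochhammer F l).comp (Polynomial.X + Polynomial.C (c : F))).coeff l = 1 := by
    have := hm.coeff_natDegree
    rwa [hd] at this
  rw [hc, mul_one]
  exact mul_ne_zero (pow_ne_zero _ h2) (inv_ne_zero hl)

end aux

theorem V_inj {p r m : ℕ} (hp : p.Prime) (hr : 2 * r < p) (hr1 : 1 ≤ r) (hm : m ≤ r)
    (hM : MM p r = 2 * r + m) (x : Ix r m → ZMod p) (hx : (V p r m).mulVec x = 0) : x = 0 := by
  classical
  have : Fact p.Prime := ⟨hp⟩
  have hp3 : 3 ≤ p := by omega
  have cast_ne : ∀ k : ℕ, 1 ≤ k → k < p → ((k : ℕ) : ZMod p) ≠ 0 := by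
    intro k h1 h2 h3
    rw [ZMod.natCast_eq_zero_iff] at h3
    exact absurd (Nat.le_of_dvd h1 h3) (by omega)
  have two_ne : (2 : ZMod p) ≠ 0 := by
    have := cast_ne 2 (by norm_num) (by omega)
    exact_mod_cast this
  have fac_ne : ∀ l : ℕ, l < p → ((l.factorial : ℕ) : ZMod p) ≠ 0 := by
    intro l hl h3
    rw [ZMod.natCast_eq_zero_iff] at h3
    exact absurd ((Nat.Prime.dvd_factorial hp).mp h3) (by omega)
  have sc_ne : ∀ j : ℕ, j < 2 * r → ((sc r j : ℕ) : ZMod p) ≠ 0 := by
    intro j hj h3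
    rw [ZMod.natCast_eq_zero_iff] at h3
    have h4 : p ∣ (mx r j).factorial := h3.trans (Nat.lcmUpto_dvd_factorial _)
    have h5 := (Nat.Prime.dvd_factorial hp).mp h4
    unfold mx at h5
    omega
  have hMlt : ∀ u : Fin (MM p r), 2 * ((u : ℕ) + 1) + 2 * r ≤ p - 1 := by
    intro u
    have h1 := u.2
    unfold MM at h1
    omega
  set a : Fin (2 * r) → ZMod p := fun j => x (Sum.inl j) * (sc r j : ZMod p) with ha
  set y : Fin m → ZMod p := fun l => x (Sum.inr l) with hy
  set Q : Polynomial (ZMod p) := ∏ k : Fin (2 * r), (Polynomial.X + Polynomial.C ((k : ℕ) : ZMod p))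
    with hQ
  set Bs : Polynomial (ZMod p) := ∑ l : Fin m, Polynomial.C (y l) * NonV_b (ZMod p) (cc r l) l
    with hBs
  set P : Polynomial (ZMod p) := (∑ j : Fin (2 * r), Polynomial.C (a j) *
      ∏ k ∈ univ.erase j, (Polynomial.X + Polynomial.C ((k : ℕ) : ZMod p))) + Bs * Q with hP
  -- degree
  have hdeg : P ∈ Polynomial.degreeLT (ZMod p) (2 * r + m) := by
    refine Submodule.add_mem _ (Submodule.sum_mem _ fun j _ => ?_) ?_
    · rw [Polynomial.mem_degreeLT]
      have h1 : (Polynomial.C (a j) *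
          ∏ k ∈ univ.erase j, (Polynomial.X + Polynomial.C ((k : ℕ) : ZMod p))).natDegree ≤
          2 * r - 1 := by
        refine (Polynomial.natDegree_C_mul_le _ _).trans ?_
        refine (Polynomial.natDegree_prod_le _ _).trans ?_
        have h2 : ∀ k ∈ (univ.erase j : Finset (Fin (2 * r))),
            (Polynomial.X + Polynomial.C ((k : ℕ) : ZMod p)).natDegree ≤ 1 := fun k _ => by
          rw [Polynomial.natDegree_X_add_C]
        refine (Finset.sum_le_card_nsmul _ _ 1 h2).trans ?_
        rw [Finset.card_erase_of_mem (mem_univ j)]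
        simp
      refine lt_of_le_of_lt Polynomial.degree_le_natDegree ?_
      have h3 : (Polynomial.C (a j) *
          ∏ k ∈ univ.erase j, (Polynomial.X + Polynomial.C ((k : ℕ) : ZMod p))).natDegree <
          2 * r + m := by omega
      exact_mod_cast h3
    · rw [hBs, Finset.sum_mul]
      refine Submodule.sum_mem _ fun l _ => ?_
      rw [Polynomial.mem_degreeLT]
      have h1 : (Polynomial.C (y l) * NonV_b (ZMod p) (cc r l) l * Q).natDegree ≤ l + 2 * r := by
        refine Polynomial.natDegree_mul_le.trans ?_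
        refine Nat.add_le_add ?_ ?_
        · exact (Polynomial.natDegree_C_mul_le _ _).trans (NonV_b_natDegree _ _)
        · rw [hQ]
          refine (Polynomial.natDegree_prod_le _ _).trans ?_
          have h2 : ∀ k ∈ (univ : Finset (Fin (2 * r))),
              (Polynomial.X + Polynomial.C ((k : ℕ) : ZMod p)).natDegree ≤ 1 := fun k _ => by
            rw [Polynomial.natDegree_X_add_C]
          refine (Finset.sum_le_card_nsmul _ _ 1 h2).trans ?_
          simp
      refine lt_of_le_of_lt Polynomial.degree_le_natDegree ?_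
      have h3 : (Polynomial.C (y l) * NonV_b (ZMod p) (cc r l) l * Q).natDegree < 2 * r + m := by
        have := l.2
        omega
      exact_mod_cast h3
  -- values
  have hval : ∀ u : Fin (MM p r), P.eval (((2 * ((u : ℕ) + 1) : ℕ)) : ZMod p) = 0 := by
    intro u
    have hu := hMlt u
    have hne : ∀ k : Fin (2 * r), (((2 * ((u : ℕ) + 1) : ℕ)) : ZMod p) + ((k : ℕ) : ZMod p) ≠ 0 := by
      intro k
      have h1 := cast_ne (2 * ((u : ℕ) + 1) + k) (by omega) (by have := k.2; omega)
      push_cast at h1 ⊢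
      exact h1
    have hVx := congrFun hx u
    rw [Matrix.mulVec, dotProduct, Fintype.sum_sum_type] at hVx
    rw [hP, Polynomial.eval_add, Polynomial.eval_finsetSum, Polynomial.eval_mul, hQ,
      Polynomial.eval_prod, hBs, Polynomial.eval_finsetSum]
    have h1 : ∀ j : Fin (2 * r), (Polynomial.C (a j) *
        ∏ k ∈ univ.erase j, (Polynomial.X + Polynomial.C ((k : ℕ) : ZMod p))).eval
          (((2 * ((u : ℕ) + 1) : ℕ)) : ZMod p) =
        (V p r m u (Sum.inl j) * x (Sum.inl j)) *
          ∏ k : Fin (2 * r), ((((2 * ((u : ℕ) + 1) : ℕ)) : ZMod p) + ((k : ℕ) : ZMod p)) := by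
      intro j
      rw [Polynomial.eval_mul, Polynomial.eval_C, Polynomial.eval_prod,
        ← Finset.mul_prod_erase univ _ (mem_univ j)]
      have h2 : V p r m u (Sum.inl j) = (sc r j : ZMod p) *
          (((2 * ((u : ℕ) + 1) + j : ℕ) : ZMod p))⁻¹ := rfl
      rw [h2, ha]
      have h3 := hne j
      have h4 : ((2 * ((u : ℕ) + 1) + j : ℕ) : ZMod p) =
          (((2 * ((u : ℕ) + 1) : ℕ)) : ZMod p) + ((j : ℕ) : ZMod p) := by push_cast; ring
      rw [h4]
      simp only [Polynomial.eval_add, Polynomial.eval_X, Polynomial.eval_C]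
      field_simp
    have h5 : ∀ l : Fin m, (Polynomial.C (y l) * NonV_b (ZMod p) (cc r l) l).eval
        (((2 * ((u : ℕ) + 1) : ℕ)) : ZMod p) = V p r m u (Sum.inr l) * x (Sum.inr l) := by
      intro l
      rw [Polynomial.eval_mul, Polynomial.eval_C, NonV_b_eval _ _ _ (fac_ne l (by
        have := l.2; omega))]
      have h2 : V p r m u (Sum.inr l) = 2 ^ ((l : ℕ) + 1) *
          (((2 * ((u : ℕ) + 1) + cc r l).choose l : ℕ) : ZMod p) := rfl
      rw [h2, hy]
      ring
    rw [Finset.sum_congr rfl (fun j _ => h1 j), Finset.sum_congr rfl (fun l _ => h5 l),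
      ← Finset.sum_mul]
    simp only [Polynomial.eval_add, Polynomial.eval_X, Polynomial.eval_C]
    rw [← add_mul, hVx]
    simp
  -- P = 0
  have hP0 : P = 0 := by
    refine Polynomial.eq_zero_of_degree_lt_of_eval_index_eq_zero (s := (univ : Finset (Fin (MM p r))))
      (v := fun u : Fin (MM p r) => (((2 * ((u : ℕ) + 1) : ℕ)) : ZMod p)) ?_ ?_ (fun u _ => hval u)
    · intro u _ v _ huv
      have h1 := hMlt u
      have h2 := hMlt v
      simp only at huv
      rw [ZMod.natCast_eq_natCast_iff'] at huv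
      rw [Nat.mod_eq_of_lt (by omega), Nat.mod_eq_of_lt (by omega)] at huv
      ext
      omega
    · rw [Finset.card_univ, Fintype.card_fin, hM]
      exact Polynomial.mem_degreeLT.mp hdeg
  -- the poles
  have hinl : ∀ j : Fin (2 * r), x (Sum.inl j) = 0 := by
    intro j
    have h1 : P.eval (-((j : ℕ) : ZMod p)) = 0 := by rw [hP0, Polynomial.eval_zero]
    rw [hP, Polynomial.eval_add, Polynomial.eval_finsetSum, Polynomial.eval_mul, hQ,
      Polynomial.eval_prod] at h1
    have h2 : ∏ k : Fin (2 * r), Polynomial.eval (-((j : ℕ) : ZMod p))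
        (Polynomial.X + Polynomial.C ((k : ℕ) : ZMod p)) = 0 := by
      apply Finset.prod_eq_zero (mem_univ j)
      simp
    have h3 : ∀ i : Fin (2 * r), i ∈ (univ : Finset (Fin (2 * r))) → i ≠ j →
        (Polynomial.C (a i) * ∏ k ∈ univ.erase i,
          (Polynomial.X + Polynomial.C ((k : ℕ) : ZMod p))).eval (-((j : ℕ) : ZMod p)) = 0 := by
      intro i _ hij
      rw [Polynomial.eval_mul, Polynomial.eval_prod]
      apply mul_eq_zero_of_right
      apply Finset.prod_eq_zero (i := j)
      · exact Finset.mem_erase.mpr ⟨fun h => hij h.symm, mem_univ j⟩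
      · simp
    rw [h2, mul_zero, add_zero, Finset.sum_eq_single j h3 (fun h => absurd (mem_univ j) h),
      Polynomial.eval_mul, Polynomial.eval_C, Polynomial.eval_prod] at h1
    have h4 : ∏ k ∈ univ.erase j, Polynomial.eval (-((j : ℕ) : ZMod p))
        (Polynomial.X + Polynomial.C ((k : ℕ) : ZMod p)) ≠ 0 := by
      rw [Finset.prod_ne_zero_iff]
      intro k hk
      have hkj : (k : ℕ) ≠ j := fun h => (Finset.mem_erase.mp hk).1 (Fin.ext h)
      simp only [Polynomial.eval_add, Polynomial.eval_X, Polynomial.eval_C]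
      intro h
      have h5 : ((k : ℕ) : ZMod p) = ((j : ℕ) : ZMod p) := by linear_combination h
      rw [ZMod.natCast_eq_natCast_iff'] at h5
      rw [Nat.mod_eq_of_lt (by have := k.2; omega), Nat.mod_eq_of_lt (by have := j.2; omega)] at h5
      exact hkj h5
    have h5 : a j = 0 := (mul_eq_zero.mp h1).resolve_right h4
    exact (mul_eq_zero.mp h5).resolve_right (sc_ne j j.2)
  have ha0 : ∀ j, a j = 0 := fun j => by rw [ha]; simp only; rw [hinl j, zero_mul]
  have hQne : Q ≠ 0 := by
    rw [hQ]
    exact (Polynomial.monic_prod_of_monic _ _ (fun k _ => Polynomial.monic_X_add_C _)).ne_zero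
  have hB0 : Bs = 0 := by
    have h1 : Bs * Q = 0 := by
      have h2 : P = Bs * Q := by
        rw [hP]
        simp [ha0]
      rw [← h2, hP0]
    exact (mul_eq_zero.mp h1).resolve_right hQne
  have hy0 : ∀ l : Fin m, y l = 0 := by
    by_contra hcon
    push Not at hcon
    obtain ⟨l0, hl0⟩ := hcon
    have hne : ((univ : Finset (Fin m)).filter (fun l => y l ≠ 0)).Nonempty :=
      ⟨l0, by simp [hl0]⟩
    obtain ⟨l, hl, hmax⟩ := Finset.exists_max_image _ (fun l : Fin m => (l : ℕ)) hne
    rw [Finset.mem_filter] at hl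
    have h1 : Bs.coeff l = 0 := by rw [hB0, Polynomial.coeff_zero]
    rw [hBs, Polynomial.finsetSum_coeff, Finset.sum_eq_single l] at h1
    · rw [Polynomial.coeff_C_mul] at h1
      rcases mul_eq_zero.mp h1 with h2 | h2
      · exact hl.2 h2
      · exact NonV_b_coeff _ _ (fac_ne l (by have := l.2; omega)) two_ne h2
    · intro k _ hk
      rw [Polynomial.coeff_C_mul]
      rcases lt_or_gt_of_ne (fun h => hk (Fin.ext h) : (k : ℕ) ≠ (l : ℕ)) with h | h
      · rw [Polynomial.coeff_eq_zero_of_natDegree_lt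
          (lt_of_le_of_lt (NonV_b_natDegree _ _) h), mul_zero]
      · have h3 : y k = 0 := by
          by_contra h4
          have := hmax k (by simp [h4])
          omega
        rw [h3, zero_mul]
    · intro h
      exact absurd (mem_univ l) h
  funext i
  rcases i with j | l
  · exact hinl j
  · exact hy0 l

end Wief
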