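import Pool.Agent.Lib.Wief.SzA
import Pool.Agent.Lib.PNT.Theta

/-!
# SzLog: `log |det A| ≤ 8.5 r^2`

PROOF. `log |det A| ≤ log (2r+m)! + (2r+m) log(20 (r+1)^2) + 2 ∑_a log S_a` (if `det A = 0` the left side is
`0`). The first two terms are `≤ 3r log(3r) + 3r log(20 (r+1)^2) = o(r^2)`.
`∑_j log s_j = ∑_{j<2r} ψ(mx r j)` (`Chebyshev.psi_eq_log_lcmUpto`), `= 2 ∑_{i=r}^{2r-1} ψ(i)`
(or bound termwise), and `ψ(i) ≤ (1 + ε) i` for `i ≥ i_0` (`PNT.psi_tendsto`), so for large `r` (`i ≥ r`):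
`2 ∑_j log s_j ≤ (1 + ε) 2 ∑_{j<2r} mx r j = (1 + ε) 2 r (3r - 1) ≤ 6 (1 + ε) r^2`.
`2 ∑_{l<m} ((l+1) + r + l/2) log 2 ≤ (m^2 + m + 2 r m + m^2/2) log 2 ≤ (3.5 r^2 + r) log 2`,
`3.5 log 2 < 2.43`. Total `≤ (6 + 2.43 + small) r^2 ≤ 8.5 r^2`.
-/

set_option autoImplicit false

open Finset

namespace Wief

private theorem SzLog_mx_sum (r : ℕ) : ∑ j ∈ range (2 * r), (mx r j : ℝ) ≤ 3 * (r : ℝ) ^ 2 := by
  rw [two_mul, Finset.sum_range_add, ← Finset.sum_add_distrib]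
  have h : ∀ j ∈ range r, (mx r j : ℝ) + (mx r (r + j) : ℝ) ≤ 3 * (r : ℝ) := by
    intro j hj
    have hj' := Finset.mem_range.1 hj
    have h1 : mx r j + mx r (r + j) ≤ 3 * r := by
      unfold mx
      omega
    exact_mod_cast h1
  refine (Finset.sum_le_sum h).trans (le_of_eq ?_)
  rw [Finset.sum_const, Finset.card_range, nsmul_eq_mul]
  ring

private theorem SzLog_sc {r1 : ℕ} (h1 : ∀ n : ℕ, r1 ≤ n → Chebyshev.psi n ≤ 1.005 * (n : ℝ)) {r : ℕ}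
    (hr : r1 ≤ r) : ∑ j : Fin (2 * r), Real.log (sc r j : ℝ) ≤ 3.015 * (r : ℝ) ^ 2 := by
  have h2 : ∀ j : Fin (2 * r), Real.log (sc r j : ℝ) ≤ 1.005 * (mx r j : ℝ) := by
    intro j
    unfold sc
    rw [← Chebyshev.psi_eq_log_lcmUpto]
    apply h1
    refine hr.trans ?_
    have := j.2
    unfold mx
    omega
  refine (Finset.sum_le_sum fun j _ => h2 j).trans ?_
  rw [← Finset.mul_sum, Fin.sum_univ_eq_sum_range (fun j => (mx r j : ℝ)) (2 * r)]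
  have := SzLog_mx_sum r
  linarith

private theorem SzLog_bin {r m : ℕ} (hm : m ≤ r) :
    ∑ l ∈ range m, (((l : ℕ) + 1 + cc r l : ℕ) : ℝ) ≤ 1.75 * (r : ℝ) ^ 2 + r := by
  have h : ∀ n : ℕ, ∑ l ∈ range n, (((l : ℕ) + 1 + cc r l : ℕ) : ℝ) ≤
      0.75 * (n : ℝ) ^ 2 + (r + 1) * n := by
    intro n
    induction n with
    | zero => simp
    | succ n ih =>
      rw [Finset.sum_range_succ]
      have h3 : ((n + 1 + cc r n : ℕ) : ℝ) ≤ 1.5 * (n : ℝ) + r + 1 := by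
        have h4 : 2 * (n + 1 + cc r n) ≤ 3 * n + 2 * r + 2 := by
          unfold cc
          omega
        have h5 : (2 : ℝ) * ((n + 1 + cc r n : ℕ) : ℝ) ≤ 3 * n + 2 * r + 2 := by exact_mod_cast h4
        linarith
      push_cast at h3 ih ⊢
      nlinarith
  have hm' : (m : ℝ) ≤ r := by exact_mod_cast hm
  have hm0 : (0 : ℝ) ≤ m := Nat.cast_nonneg m
  have := h m
  nlinarith

private theorem SzLog_sc_pos (r j : ℕ) : (0 : ℝ) < (sc r j : ℝ) := by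
  unfold sc
  exact_mod_cast Nat.lcmUpto_pos _

private theorem SzLog_Sz_pos {r m : ℕ} (a : Ix r m) : (0 : ℝ) < (Sz r m a : ℝ) := by
  rcases a with j | l
  · exact SzLog_sc_pos r j
  · show (0 : ℝ) < ((2 ^ ((l : ℕ) + 1) * 2 ^ cc r l : ℕ) : ℝ)
    positivity

private theorem SzLog_prod {r1 : ℕ} (h1 : ∀ n : ℕ, r1 ≤ n → Chebyshev.psi n ≤ 1.005 * (n : ℝ)) {r m : ℕ}
    (hr : r1 ≤ r) (hm : m ≤ r) :
    Real.log (∏ a : Ix r m, (Sz r m a : ℝ)) ≤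
      3.015 * (r : ℝ) ^ 2 + (1.75 * (r : ℝ) ^ 2 + r) * Real.log 2 := by
  rw [Real.log_prod (fun a _ => (SzLog_Sz_pos a).ne'), Fintype.sum_sum_type]
  refine add_le_add (SzLog_sc h1 hr) ?_
  have h2 : ∀ l : Fin m, Real.log (Sz r m (Sum.inr l) : ℝ) =
      (((l : ℕ) + 1 + cc r l : ℕ) : ℝ) * Real.log 2 := by
    intro l
    have h3 : ((Sz r m (Sum.inr l) : ℕ) : ℝ) = 2 ^ ((l : ℕ) + 1 + cc r l) := by
      show (((2 ^ ((l : ℕ) + 1) * 2 ^ cc r l : ℕ)) : ℝ) = _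
      push_cast
      ring
    rw [h3, Real.log_pow]
  rw [Finset.sum_congr rfl fun l _ => h2 l, ← Finset.sum_mul,
    Fin.sum_univ_eq_sum_range (fun l => (((l : ℕ) + 1 + cc r l : ℕ) : ℝ)) m]
  exact mul_le_mul_of_nonneg_right (SzLog_bin hm) (Real.log_nonneg (by norm_num))

theorem log_det : ∃ r0 : ℕ, ∀ r, r0 ≤ r → ∀ m, m ≤ r →
    Real.log |((A r m).det : ℝ)| ≤ 8.5 * (r : ℝ) ^ 2 := by
  have e1 : ∀ᶠ x : ℝ in Filter.atTop, Chebyshev.psi x / x < 1.005 :=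
    PNT.psi_tendsto.eventually_lt_const (by norm_num)
  obtain ⟨x1, hx1⟩ := Filter.eventually_atTop.1 e1
  have e2 : ∀ᶠ x : ℝ in Filter.atTop, ‖Real.log x‖ ≤ 0.001 * ‖id x‖ :=
    Real.isLittleO_log_id_atTop.bound (by norm_num)
  obtain ⟨x2, hx2⟩ := Filter.eventually_atTop.1 e2
  refine ⟨max (max ⌈x1⌉₊ ⌈x2⌉₊) 10000, ?_⟩
  intro r hr m hm
  have hr1 : max ⌈x1⌉₊ 1 ≤ r := by
    have a1 : ⌈x1⌉₊ ≤ max (max ⌈x1⌉₊ ⌈x2⌉₊) 10000 := (le_max_left _ _).trans (le_max_left _ _)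
    have a2 : 10000 ≤ max (max ⌈x1⌉₊ ⌈x2⌉₊) 10000 := le_max_right _ _
    omega
  have hr2 : ⌈x2⌉₊ ≤ r := ((le_max_right _ _).trans (le_max_left _ _)).trans hr
  have hr3 : 10000 ≤ r := (le_max_right _ _).trans hr
  have h1 : ∀ n : ℕ, max ⌈x1⌉₊ 1 ≤ n → Chebyshev.psi n ≤ 1.005 * (n : ℝ) := by
    intro n hn
    have b1 : ⌈x1⌉₊ ≤ n := (le_max_left _ _).trans hn
    have b2 : 1 ≤ n := (le_max_right _ _).trans hn
    have b3 : x1 ≤ (n : ℝ) := (Nat.le_ceil x1).trans (by exact_mod_cast b1)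
    have b4 := hx1 (n : ℝ) b3
    have b5 : (0 : ℝ) < n := by exact_mod_cast b2
    rw [div_lt_iff₀ b5] at b4
    exact b4.le
  have hR : (10000 : ℝ) ≤ (r : ℝ) := by exact_mod_cast hr3
  have hlog : Real.log ((r : ℝ) + 1) ≤ 0.001 * ((r : ℝ) + 1) := by
    have c1 : x2 ≤ (r : ℝ) + 1 := by
      have : x2 ≤ (r : ℝ) := (Nat.le_ceil x2).trans (by exact_mod_cast hr2)
      linarith
    have c2 := hx2 _ c1
    have c3 : ‖id ((r : ℝ) + 1)‖ = (r : ℝ) + 1 := by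
      rw [id, Real.norm_eq_abs, abs_of_nonneg (by positivity)]
    rw [c3] at c2
    exact (le_abs_self _).trans c2
  set L : ℝ := Real.log (20 * ((r : ℝ) + 1) ^ 2) with hL
  have hL1 : L ≤ 19 + 0.002 * ((r : ℝ) + 1) := by
    rw [hL, Real.log_mul (by norm_num) (by positivity), Real.log_pow]
    have d1 : Real.log 20 ≤ 19 := by
      have := Real.log_le_sub_one_of_pos (show (0 : ℝ) < 20 by norm_num)
      linarith
    push_cast
    linarith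
  have hL0 : 0 ≤ L := Real.log_nonneg (by nlinarith)
  have hlog2 : Real.log 2 ≤ L := Real.log_le_log (by norm_num) (by nlinarith)
  -- the bound
  by_cases hD : (A r m).det = 0
  · rw [hD]
    simp only [Int.cast_zero, abs_zero, Real.log_zero]
    positivity
  have hdet := det_le hm
  have hdetR : |((A r m).det : ℝ)| ≤ ((2 * r + m).factorial : ℝ) *
      (20 * ((r : ℝ) + 1) ^ 2) ^ (2 * r + m) * (∏ a : Ix r m, (Sz r m a : ℝ)) ^ 2 := by
    exact_mod_cast hdet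
  have hDpos : 0 < |((A r m).det : ℝ)| := by
    rw [abs_pos]
    exact_mod_cast hD
  have hPpos : 0 < ∏ a : Ix r m, (Sz r m a : ℝ) := Finset.prod_pos fun a _ => SzLog_Sz_pos a
  have hfpos : (0 : ℝ) < ((2 * r + m).factorial : ℝ) := by exact_mod_cast Nat.factorial_pos _
  have hBpos : (0 : ℝ) < 20 * ((r : ℝ) + 1) ^ 2 := by positivity
  refine (Real.log_le_log hDpos hdetR).trans ?_
  rw [Real.log_mul (mul_pos hfpos (pow_pos hBpos _)).ne' (pow_pos hPpos 2).ne',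
    Real.log_mul hfpos.ne' (pow_pos hBpos _).ne', Real.log_pow, Real.log_pow, ← hL]
  have hP := SzLog_prod h1 hr1 hm
  have hN : ((2 * r + m : ℕ) : ℝ) ≤ 3 * r := by
    have : 2 * r + m ≤ 3 * r := by omega
    exact_mod_cast this
  have hN0 : (0 : ℝ) < ((2 * r + m : ℕ) : ℝ) := by
    have : 0 < 2 * r + m := by omega
    exact_mod_cast this
  have hfac : Real.log ((2 * r + m).factorial : ℝ) ≤ ((2 * r + m : ℕ) : ℝ) * L := by
    have f1 : ((2 * r + m).factorial : ℝ) ≤ ((2 * r + m : ℕ) : ℝ) ^ (2 * r + m) := by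
      exact_mod_cast Nat.factorial_le_pow (2 * r + m)
    refine (Real.log_le_log hfpos f1).trans ?_
    rw [Real.log_pow]
    refine mul_le_mul_of_nonneg_left ?_ hN0.le
    exact Real.log_le_log hN0 (by nlinarith)
  have hNL : ((2 * r + m : ℕ) : ℝ) * L ≤ 3 * r * L := mul_le_mul_of_nonneg_right hN hL0
  have hl2 : Real.log 2 < 0.6931471808 := Real.log_two_lt_d9
  have hl2' : 0 < Real.log 2 := Real.log_pos (by norm_num)
  have hrL : (r : ℝ) * L ≤ r * (19 + 0.002 * ((r : ℝ) + 1)) :=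
    mul_le_mul_of_nonneg_left hL1 (by linarith)
  have hr2l : (3.5 * (r : ℝ) ^ 2 + 2 * r) * Real.log 2 ≤
      (3.5 * (r : ℝ) ^ 2 + 2 * r) * 0.6931471808 :=
    mul_le_mul_of_nonneg_left hl2.le (by positivity)
  push_cast at hfac hNL hP ⊢
  nlinarith

end Wief
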