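import Pool.Agent.Lib.Wief.MGram
import Pool.Agent.Lib.Wief.LinD
import Pool.Agent.Lib.Wief.NonV
import Pool.Agent.Lib.Wief.SzLog
import Pool.Agent.Lib.Wief.Gain

/-!
# BelowW: many non-Wieferich primes below a Wieferich prime

PROOF. `div_log`: for a Wieferich prime `q > 2r` (`q > 3`), `q^(2r + m - MM q r) ∣ det A` (`A_mod`,
`det_dvd`, `Fintype.card (Ix r m) = 2r + m`). The prime powers are pairwise coprime, so their product over
the Wieferich `q` in `(2r, 8r)` divides `det A ≠ 0`: sum of `(2r+m-MM q r) log q ≤ log |det A|`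
(`Finset.prod_coprime_dvd`-like / `Finset.prod_primes_dvd` pattern; `Int.natAbs`).
`below_W`: let `p` be a large Wieferich prime, `r = (p+6)/8` (floor), `m = (p-1)/2 - 3r`. Then
`8r ≥ p - 1`, `8r ≤ p + 6`, so `m ≤ r ≤ m + 3` (natural numbers; `p` odd), `MM p r = 2r + m`, `2r < p`;
`det A ≠ 0` by `A_mod`, `V_inj`, `det_ne`. `2r + m - MM q r = 3r + m - (q-1)/2 =: e_q` (truncated natural
subtractions; `(q-1)/2 ≥ r`). `log_det`: `∑_{q Wieferich} e_q log q ≤ 8.5 r^2`. With `gain` the sum over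
the non-Wieferich primes `q` in `(2r, 8r)` is `≥ 0.4 r^2`; there `e_q = 0` for `q ≥ p`
(`3r + m = (p-1)/2`), `e_q ≤ 3r`, `log q ≤ log p`: their number below `p` is `≥ 0.4 r^2 / (3 r log p)`
`≥ 0.13 (p-1) / (8 log p) ≥ p / (100 log p)`.
-/

set_option autoImplicit false

open Finset

namespace Wief

private theorem BelowW_dvd {r m q : ℕ} (hr : 2 ≤ r) (hm : m ≤ r) (hq : 2 * r < q) (hw : IsW q) :
    ((q : ℤ) ^ (3 * r + m - (q - 1) / 2)) ∣ (A r m).det := by
  have h := det_dvd hw.1 (A r m) (V q r m) (A_mod hw (by omega) hq hm)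
  have hc : Fintype.card (Ix r m) = 2 * r + m := by simp [Ix]
  rw [hc, Fintype.card_fin] at h
  have e : 2 * r + m - MM q r = 3 * r + m - (q - 1) / 2 := by
    unfold MM
    omega
  rwa [e] at h

open Classical in
theorem div_log {r m : ℕ} (hr : 2 ≤ r) (hm : m ≤ r) (h0 : (A r m).det ≠ 0) :
    ∑ q ∈ (Ioo (2 * r) (8 * r)).filter IsW, ((3 * r + m - (q - 1) / 2 : ℕ) : ℝ) * Real.log q ≤
      Real.log |((A r m).det : ℝ)| := by
  set S := (Ioo (2 * r) (8 * r)).filter IsW with hS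
  have hd : ∏ q ∈ S, ((q : ℤ) ^ (3 * r + m - (q - 1) / 2)) ∣ (A r m).det := by
    refine Finset.prod_dvd_of_coprime ?_ ?_
    · intro a ha b hb hab
      have ha' := (mem_filter.1 (Finset.mem_coe.1 ha)).2
      have hb' := (mem_filter.1 (Finset.mem_coe.1 hb)).2
      exact IsCoprime.pow (Nat.isCoprime_iff_coprime.2 ((Nat.coprime_primes ha'.1 hb'.1).2 hab))
    · intro q hq
      have hq' := mem_filter.1 hq
      exact BelowW_dvd hr hm (mem_Ioo.1 hq'.1).1 hq'.2
  have hpos : ∀ q ∈ S, (0 : ℝ) < (q : ℝ) := by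
    intro q hq
    exact_mod_cast (mem_filter.1 hq).2.1.pos
  have h1 : ∏ q ∈ S, ((q : ℤ) ^ (3 * r + m - (q - 1) / 2)) ≤ |(A r m).det| :=
    Int.le_of_dvd (abs_pos.2 h0) ((dvd_abs _ _).2 hd)
  have h2 : ∏ q ∈ S, ((q : ℝ) ^ (3 * r + m - (q - 1) / 2)) ≤ |((A r m).det : ℝ)| := by
    exact_mod_cast h1
  have h3 : Real.log (∏ q ∈ S, ((q : ℝ) ^ (3 * r + m - (q - 1) / 2))) =
      ∑ q ∈ S, ((3 * r + m - (q - 1) / 2 : ℕ) : ℝ) * Real.log q := by
    rw [Real.log_prod (fun q hq => (pow_pos (hpos q hq) _).ne')]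
    exact sum_congr rfl fun q _ => Real.log_pow _ _
  rw [← h3]
  exact Real.log_le_log (prod_pos fun q hq => pow_pos (hpos q hq) _) h2

open Classical in
theorem below_W : ∃ P0 : ℕ, ∀ p, P0 ≤ p → IsW p →
    (p : ℝ) / (100 * Real.log p) ≤
      (((range p).filter (fun q => q.Prime ∧ ¬ IsW q)).card : ℝ) := by
  obtain ⟨r1, hr1⟩ := log_det
  obtain ⟨r2, hr2⟩ := gain
  refine ⟨8 * (r1 + r2) + 100, fun p hp hw => ?_⟩
  have hodd : p % 2 = 1 := by
    rcases hw.1.eq_two_or_odd with h | h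
    · omega
    · exact h
  obtain ⟨r, hr⟩ : ∃ r, r = (p + 6) / 8 := ⟨_, rfl⟩
  obtain ⟨m, hm⟩ : ∃ m, m = (p - 1) / 2 - 3 * r := ⟨_, rfl⟩
  have b1 : 8 * r ≤ p + 6 := by omega
  have b2 : p ≤ 8 * r + 1 := by omega
  have b3 : 3 * r + m = (p - 1) / 2 := by omega
  have b4 : m ≤ r := by omega
  have b5 : r ≤ m + 3 := by omega
  have b6 : 2 * r < p := by omega
  have b7 : 2 ≤ r := by omega
  have hM : MM p r = 2 * r + m := by
    unfold MM
    omega
  have h0 : (A r m).det ≠ 0 := by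
    refine det_ne hw.1 (A r m) (V p r m) (A_mod hw (by omega) b6 b4) ?_
      (V_inj hw.1 b6 (by omega) b4 hM)
    rw [Fintype.card_fin, hM]
    simp [Ix]
  have c1 := div_log b7 b4 h0
  have c2 := hr1 r (by omega) m b4
  have c3 := hr2 r (by omega) m b5
  have c4 : ∑ q ∈ (Ioo (2 * r) (8 * r)).filter Nat.Prime,
      ((3 * r + m - (q - 1) / 2 : ℕ) : ℝ) * Real.log q =
      ∑ q ∈ (Ioo (2 * r) (8 * r)).filter IsW,
        ((3 * r + m - (q - 1) / 2 : ℕ) : ℝ) * Real.log q +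
      ∑ q ∈ (Ioo (2 * r) (8 * r)).filter (fun q => q.Prime ∧ ¬ IsW q),
        ((3 * r + m - (q - 1) / 2 : ℕ) : ℝ) * Real.log q := by
    rw [← sum_filter_add_sum_filter_not ((Ioo (2 * r) (8 * r)).filter Nat.Prime) IsW]
    congr 1
    · refine sum_congr ?_ fun _ _ => rfl
      ext q
      simp only [mem_filter]
      constructor
      · rintro ⟨⟨h1, _⟩, h2⟩
        exact ⟨h1, h2⟩
      · rintro ⟨h1, h2⟩
        exact ⟨⟨h1, h2.1⟩, h2⟩
    · refine sum_congr ?_ fun _ _ => rfl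
      ext q
      simp only [mem_filter]
      tauto
  have hlogp : 0 < Real.log p := Real.log_pos (by exact_mod_cast (by omega : 1 < p))
  set N := (range p).filter (fun q => q.Prime ∧ ¬ IsW q) with hN
  have c5 : ∑ q ∈ (Ioo (2 * r) (8 * r)).filter (fun q => q.Prime ∧ ¬ IsW q),
        ((3 * r + m - (q - 1) / 2 : ℕ) : ℝ) * Real.log q ≤
      (N.card : ℝ) * (3 * r * Real.log p) := by
    have d1 : ∑ q ∈ (Ioo (2 * r) (8 * r)).filter (fun q => q.Prime ∧ ¬ IsW q),
        ((3 * r + m - (q - 1) / 2 : ℕ) : ℝ) * Real.log q =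
      ∑ q ∈ ((Ioo (2 * r) (8 * r)).filter (fun q => q.Prime ∧ ¬ IsW q)).filter (fun q => q < p),
        ((3 * r + m - (q - 1) / 2 : ℕ) : ℝ) * Real.log q := by
      symm
      refine sum_subset (filter_subset _ _) fun q hq hq' => ?_
      have hqp : p ≤ q := by
        by_contra h
        exact hq' (mem_filter.2 ⟨hq, by omega⟩)
      have : 3 * r + m - (q - 1) / 2 = 0 := by omega
      rw [this]
      simp
    rw [d1]
    have d2 : ∀ q ∈ ((Ioo (2 * r) (8 * r)).filter (fun q => q.Prime ∧ ¬ IsW q)).filter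
        (fun q => q < p), ((3 * r + m - (q - 1) / 2 : ℕ) : ℝ) * Real.log q ≤
          3 * r * Real.log p := by
      intro q hq
      obtain ⟨hq1, hq2⟩ := mem_filter.1 hq
      obtain ⟨hq3, hq4⟩ := mem_filter.1 hq1
      have hq5 := (mem_Ioo.1 hq3).1
      have e1 : ((3 * r + m - (q - 1) / 2 : ℕ) : ℝ) ≤ 3 * r := by
        have : 3 * r + m - (q - 1) / 2 ≤ 3 * r := by omega
        exact_mod_cast this
      have e2 : Real.log q ≤ Real.log p := by
        refine Real.log_le_log ?_ ?_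
        · exact_mod_cast hq4.1.pos
        · exact_mod_cast hq2.le
      have e3 : 0 ≤ Real.log (q : ℝ) := Real.log_natCast_nonneg q
      exact mul_le_mul e1 e2 e3 (by positivity)
    refine (sum_le_sum d2).trans ?_
    rw [sum_const, nsmul_eq_mul]
    refine mul_le_mul_of_nonneg_right ?_ (by positivity)
    have : (((Ioo (2 * r) (8 * r)).filter (fun q => q.Prime ∧ ¬ IsW q)).filter
        (fun q => q < p)).card ≤ N.card := by
      refine card_le_card fun q hq => ?_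
      obtain ⟨hq1, hq2⟩ := mem_filter.1 hq
      obtain ⟨hq3, hq4⟩ := mem_filter.1 hq1
      rw [hN, mem_filter, mem_range]
      exact ⟨hq2, hq4⟩
    exact_mod_cast this
  have c6 : 0.4 * (r : ℝ) ^ 2 ≤ (N.card : ℝ) * (3 * r * Real.log p) := by
    linarith
  have hr0 : (0 : ℝ) < r := by exact_mod_cast (by omega : 0 < r)
  have c7 : 0.4 * (r : ℝ) ≤ (N.card : ℝ) * (3 * Real.log p) := by
    have : (r : ℝ) * (0.4 * (r : ℝ)) ≤ r * ((N.card : ℝ) * (3 * Real.log p)) := by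
      calc (r : ℝ) * (0.4 * (r : ℝ)) = 0.4 * (r : ℝ) ^ 2 := by ring
        _ ≤ (N.card : ℝ) * (3 * r * Real.log p) := c6
        _ = r * ((N.card : ℝ) * (3 * Real.log p)) := by ring
    exact le_of_mul_le_mul_left this hr0
  have c8 : (p : ℝ) ≤ 8 * r + 1 := by exact_mod_cast b2
  have c9 : (100 : ℝ) ≤ p := by exact_mod_cast (by omega : 100 ≤ p)
  rw [div_le_iff₀ (by positivity)]
  nlinarith [c7, c8, c9]

end Wief
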