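import Pool.Agent.Lib.Wief.Defs

/-!
# BinD: degrees (iterated forward differences vanish)

PROOFS. `Δ` is `fwdDiff (1 : ℤ)`. `deg_choose`: `Δ (x ↦ C(x + c, l+1)) = (x ↦ C(x + c, l))` (Pascal,
`Ring.choose_succ_succ`-like) and `Δ 1 = 0`; induction on `l`. `deg_mono`: `Δ^[k] 0 = 0`.
`deg_add`, `deg_smul`, `deg_sum`: `fwdDiff_iter_add`, `fwdDiff_iter_const_smul`,
`fwdDiff_iter_finsetSum`. `deg_mul`: `Δ(f g)(x) = Δf(x) g(x+1) + f(x) Δg(x)`; induction on `D + D'`
(statement for all `f, g`; a function with `Δ^[1] f = 0`, `D = 0`: `f(x+1) = f(x)`; the shift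
`g(· + 1)` has the same degree, `fwdDiff_iter_comp_add`); alternatively: every `f` with
`Δ^[D+1] f = 0` on `ℤ` is an integer combination of `C(x, k)`, `k ≤ D`.
`deg_ph`, `deg_ps`, `deg_phph` follow.
-/

set_option autoImplicit false

open Finset

namespace Wief

/-- degree at most `D` -/
def Dg (D : ℕ) (f : ℤ → ℤ) : Prop := ∀ x, (fwdDiff (1 : ℤ))^[D + 1] f x = 0

private theorem iter_zero (n : ℕ) : (fwdDiff (1 : ℤ))^[n] (fun _ : ℤ => (0 : ℤ)) = fun _ => 0 := by
  induction n with
  | zero => rfl
  | succ n ih =>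
      rw [Function.iterate_succ_apply]
      have : fwdDiff (1 : ℤ) (fun _ : ℤ => (0 : ℤ)) = fun _ => 0 := by
        funext x; simp [fwdDiff]
      rw [this, ih]

private theorem dg_iff {D : ℕ} {f : ℤ → ℤ} :
    Dg D f ↔ (fwdDiff (1 : ℤ))^[D + 1] f = fun _ => 0 :=
  ⟨fun h => funext h, fun h x => by rw [h]⟩

theorem deg_choose (c : ℤ) (l : ℕ) : Dg l (fun x => Ring.choose (x + c) l) := by
  induction l with
  | zero =>
      intro x
      simp [fwdDiff, Ring.choose_zero_right]
  | succ l ih =>
      rw [dg_iff] at ih ⊢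
      rw [Function.iterate_succ_apply]
      have : fwdDiff (1 : ℤ) (fun x : ℤ => Ring.choose (x + c) (l + 1)) =
          fun x : ℤ => Ring.choose (x + c) l := by
        funext x
        have h := Ring.choose_succ_succ (x + c) l
        have e : x + 1 + c = x + c + 1 := by ring
        simp only [fwdDiff]
        rw [e, h]
        ring
      rw [this, ih]

theorem deg_mono {D D' : ℕ} (h : D ≤ D') {f : ℤ → ℤ} (hf : Dg D f) : Dg D' f := by
  rw [dg_iff] at hf ⊢
  obtain ⟨k, rfl⟩ := Nat.exists_eq_add_of_le h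
  have e : D + k + 1 = k + (D + 1) := by ring
  rw [e, Function.iterate_add_apply, hf, iter_zero]

theorem deg_smul {D : ℕ} {f : ℤ → ℤ} (a : ℤ) (hf : Dg D f) : Dg D (fun x => a * f x) := by
  intro x
  have h := fwdDiff_iter_const_smul (h := (1 : ℤ)) a f (D + 1)
  have e : (fun x => a * f x) = a • f := by
    funext y; simp [smul_eq_mul]
  rw [e, h, Pi.smul_apply, hf x, smul_zero]

theorem deg_sum {ι : Type*} {D : ℕ} (s : Finset ι) (f : ι → ℤ → ℤ) (hf : ∀ i ∈ s, Dg D (f i)) :
    Dg D (fun x => ∑ i ∈ s, f i x) := by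
  intro x
  have h := fwdDiff_iter_finsetSum (h := (1 : ℤ)) s f (D + 1)
  have e : (fun x => ∑ i ∈ s, f i x) = ∑ i ∈ s, f i := by
    funext y; simp [Finset.sum_apply]
  rw [e, h, Finset.sum_apply]
  exact Finset.sum_eq_zero fun i hi => hf i hi x

private theorem mul_aux (n : ℕ) : ∀ (D D' : ℕ) (f g : ℤ → ℤ), D + D' = n →
    (fwdDiff (1 : ℤ))^[D + 1] f = (fun _ => 0) → (fwdDiff (1 : ℤ))^[D' + 1] g = (fun _ => 0) →
    (fwdDiff (1 : ℤ))^[n + 1] (fun x => f x * g x) = fun _ => 0 := by
  induction n with
  | zero =>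
      intro D D' f g hn hf hg
      have hD : D = 0 := by omega
      have hD' : D' = 0 := by omega
      subst hD; subst hD'
      funext x
      have h1 : f (x + 1) = f x := by
        have := congrFun hf x
        simp only [zero_add, Function.iterate_one, fwdDiff] at this
        linarith
      have h2 : g (x + 1) = g x := by
        have := congrFun hg x
        simp only [zero_add, Function.iterate_one, fwdDiff] at this
        linarith
      simp only [zero_add, Function.iterate_one, fwdDiff, h1, h2, sub_self]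
  | succ n ih =>
      intro D D' f g hn hf hg
      have key : fwdDiff (1 : ℤ) (fun x => f x * g x) =
          (fun x => fwdDiff (1 : ℤ) f x * g (x + 1)) + (fun x => f x * fwdDiff (1 : ℤ) g x) := by
        funext x
        simp only [fwdDiff, Pi.add_apply]
        ring
      rw [Function.iterate_succ_apply, key, fwdDiff_iter_add]
      have hsh : (fwdDiff (1 : ℤ))^[D' + 1] (fun x => g (x + 1)) = fun _ => 0 := by
        funext x
        rw [fwdDiff_iter_comp_add (h := (1 : ℤ)) g 1 (D' + 1) x, hg]
      have A : (fwdDiff (1 : ℤ))^[n + 1] (fun x => fwdDiff (1 : ℤ) f x * g (x + 1)) =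
          fun _ => 0 := by
        rcases Nat.eq_zero_or_pos D with h0 | hpos
        · subst h0
          have hz : fwdDiff (1 : ℤ) f = fun _ => 0 := by
            simpa using hf
          rw [hz]
          have : (fun x : ℤ => (fun _ : ℤ => (0 : ℤ)) x * g (x + 1)) = fun _ => 0 := by
            funext x; simp
          rw [this, iter_zero]
        · obtain ⟨E, rfl⟩ : ∃ E, D = E + 1 := ⟨D - 1, by omega⟩
          refine ih E D' (fwdDiff (1 : ℤ) f) (fun x => g (x + 1)) (by omega) ?_ hsh
          rw [← Function.iterate_succ_apply]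
          exact hf
      have B : (fwdDiff (1 : ℤ))^[n + 1] (fun x => f x * fwdDiff (1 : ℤ) g x) = fun _ => 0 := by
        rcases Nat.eq_zero_or_pos D' with h0 | hpos
        · subst h0
          have hz : fwdDiff (1 : ℤ) g = fun _ => 0 := by
            simpa using hg
          rw [hz]
          have : (fun x : ℤ => f x * (fun _ : ℤ => (0 : ℤ)) x) = fun _ => 0 := by
            funext x; simp
          rw [this, iter_zero]
        · obtain ⟨E, rfl⟩ : ∃ E, D' = E + 1 := ⟨D' - 1, by omega⟩
          refine ih D E f (fwdDiff (1 : ℤ) g) (by omega) hf ?_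
          rw [← Function.iterate_succ_apply]
          exact hg
      rw [A, B]
      funext x
      simp

theorem deg_mul {D D' : ℕ} {f g : ℤ → ℤ} (hf : Dg D f) (hg : Dg D' g) :
    Dg (D + D') (fun x => f x * g x) := by
  rw [dg_iff] at hf hg ⊢
  exact mul_aux (D + D') D D' f g rfl hf hg

theorem deg_ph (r l : ℕ) : Dg l (ph r l) := deg_choose (cc r l : ℤ) l

theorem deg_ps (r j l : ℕ) : Dg l (ps r j l) := by
  have h := deg_sum (D := l) (Icc 1 l)
    (fun k (t : ℤ) => Ring.choose ((cc r l : ℤ) - j) (l - k) * ((sc r j / k : ℕ) : ℤ) *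
      Ring.choose (t + j - 1) (k - 1)) (by
      intro k hk
      rw [Finset.mem_Icc] at hk
      refine deg_smul _ (deg_mono (D := k - 1) (by omega) ?_)
      have h2 := deg_choose ((j : ℤ) - 1) (k - 1)
      have e : (fun x : ℤ => Ring.choose (x + ((j : ℤ) - 1)) (k - 1)) =
          fun x : ℤ => Ring.choose (x + j - 1) (k - 1) := by
        funext x
        rw [add_sub_assoc]
      rw [e] at h2
      exact h2)
  exact h

theorem deg_phph (r l l' : ℕ) : Dg (l + l') (fun t => ph r l t * ph r l' t) :=
  deg_mul (deg_ph r l) (deg_ph r l')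

end Wief
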