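import Pool.Agent.Lib.Wief.Defs

/-!
# BinV: values of the binomials `ph`, `ps`

PROOFS. `ph_nat`: `Ring.choose_natCast` (push_cast `(t + cc : ℕ)`). `dvd_sc`: `1 ≤ k ≤ mx r j`, then
`k ∣ lcm(1..mx)` (`Nat.lcmUpto = (Icc 1 n).lcm id`, `Finset.dvd_lcm`).
`ps_mul`: put `N = c_l - j`, `x = t + j`, so `t + c_l = N + x`. Vandermonde (`Ring.add_choose_eq`, with
`Commute.all`): `C(N + x, l) = ∑_{k=0}^l C(N, l-k) C(x, k)`; the term `k = 0` is `C(N, l) = ph r l (-j)`;
for `k ≥ 1`: `k C(x, k) = x C(x-1, k-1)` (from `Ring.choose` absorption, e.g. via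
`Ring.descPochhammer_eq_factorial_smul_choose`, or prove it for naturals and extend; or by induction) and
`s_j = k (s_j / k)` (`dvd_sc`, `k ≤ l ≤ r ≤ mx r j` because `r ≤ max(j, 2r-1-j)`).
-/

set_option autoImplicit false

open Finset

namespace Wief

theorem dvd_sc {r j k : ℕ} (hk : 1 ≤ k) (h : k ≤ mx r j) : k ∣ sc r j := by
  have h1 : k ∈ Finset.Icc 1 (mx r j) := Finset.mem_Icc.2 ⟨hk, h⟩
  have h2 := Finset.dvd_lcm (f := id) h1
  simpa [sc, Nat.lcmUpto] using h2

theorem le_mx {r j : ℕ} (hj : j < 2 * r) : r ≤ mx r j := by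
  unfold mx
  omega

theorem ph_nat (r l t : ℕ) : ph r l (t : ℤ) = ((t + cc r l).choose l : ℕ) := by
  unfold ph
  have h : ((t : ℤ) + (cc r l : ℤ)) = ((t + cc r l : ℕ) : ℤ) := by push_cast; rfl
  rw [h, Ring.choose_natCast]

theorem absorb (x : ℤ) (k : ℕ) : ((k : ℤ) + 1) * Ring.choose x (k + 1) = x * Ring.choose (x - 1) k := by
  have h1 := Ring.descPochhammer_eq_factorial_smul_choose x (k + 1)
  have h2 := Ring.descPochhammer_eq_factorial_smul_choose (x - 1) k
  have h3 : (descPochhammer ℤ (k + 1)).smeval x = x * (descPochhammer ℤ k).smeval (x - 1) := by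
    rw [descPochhammer_succ_left, Polynomial.smeval_X_mul, Polynomial.smeval_comp]
    congr 2
    rw [Polynomial.smeval_sub, Polynomial.smeval_X, Polynomial.smeval_one]
    simp
  rw [h3, h2] at h1
  have h4 : (0 : ℤ) < (k.factorial : ℤ) := by exact_mod_cast Nat.factorial_pos k
  have h5 : (k.factorial : ℤ) * (((k : ℤ) + 1) * Ring.choose x (k + 1)) =
      (k.factorial : ℤ) * (x * Ring.choose (x - 1) k) := by
    simp only [nsmul_eq_mul, Nat.factorial_succ] at h1
    push_cast at h1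
    linear_combination -h1
  exact mul_left_cancel₀ h4.ne' h5

theorem ps_mul {r j l : ℕ} (hj : j < 2 * r) (hl : l ≤ r) (t : ℤ) :
    (t + j) * ps r j l t = sc r j * (ph r l t - ph r l (-(j : ℤ))) := by
  have h0 : ph r l t = ∑ k ∈ range (l + 1),
      Ring.choose (t + j) k * Ring.choose ((cc r l : ℤ) - j) (l - k) := by
    unfold ph
    rw [show t + (cc r l : ℤ) = (t + j) + ((cc r l : ℤ) - j) by ring,
      Ring.add_choose_eq l (Commute.all _ _),
      Finset.Nat.sum_antidiagonal_eq_sum_range_succ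
        (fun a b => Ring.choose (t + (j : ℤ)) a * Ring.choose ((cc r l : ℤ) - j) b)]
  rw [h0, Finset.sum_range_succ', Ring.choose_zero_right]
  have h1 : ph r l (-(j : ℤ)) = Ring.choose ((cc r l : ℤ) - j) l := by
    unfold ph
    congr 1
    ring
  rw [h1, Nat.sub_zero, one_mul, add_sub_cancel_right]
  unfold ps
  rw [Finset.mul_sum, Finset.mul_sum]
  refine Finset.sum_nbij' (fun k => k - 1) (fun k => k + 1) ?_ ?_ ?_ ?_ ?_
  · intro k hk
    have := Finset.mem_Icc.1 hk
    simp only [Finset.mem_range]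
    omega
  · intro k hk
    have := Finset.mem_range.1 hk
    simp only [Finset.mem_Icc]
    omega
  · intro k hk
    have := Finset.mem_Icc.1 hk
    show k - 1 + 1 = k
    omega
  · intro k hk
    simp
  · intro k hk
    obtain ⟨hk1, hk2⟩ := Finset.mem_Icc.1 hk
    obtain ⟨i, rfl⟩ : ∃ i, k = i + 1 := ⟨k - 1, by omega⟩
    have hd : (i + 1) ∣ sc r j := dvd_sc hk1 (hk2.trans (hl.trans (le_mx hj)))
    have h2 : ((i : ℤ) + 1) * ((sc r j / (i + 1) : ℕ) : ℤ) = (sc r j : ℤ) := by
      have := Nat.mul_div_cancel' hd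
      exact_mod_cast this
    have h3 := absorb (t + j) i
    simp only [Nat.add_sub_cancel]
    rw [← h2]
    linear_combination
      -(Ring.choose ((cc r l : ℤ) - j) (l - (i + 1)) * ((sc r j / (i + 1) : ℕ) : ℤ)) * h3

end Wief
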