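import Pool.Agent.Lib.Wief.BelowW
import Pool.Agent.Lib.PNT.Theta

/-!
# Count: a positive proportion of the primes is not Wieferich

PROOF. Let `X` be large. If there is a Wieferich prime `p` in `(X/2, X]` use `below_W`:
`p / (100 log p) ≥ X / (200 log X)`. Otherwise all primes in `(X/2, X]` count: at least
`(θ(X) - θ(X/2)) / log X ≥ (1/2 - ε) X / log X` of them (`PNT.theta_tendsto`; `X/2` floor).
-/

set_option autoImplicit false

open Finset

namespace Wief

private theorem Count_theta : ∃ x1 : ℕ, ∀ n : ℕ, x1 ≤ n →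
    0.9 * (n : ℝ) ≤ Chebyshev.theta (n : ℝ) ∧ Chebyshev.theta (n : ℝ) ≤ 1.1 * (n : ℝ) := by
  have h := PNT.theta_tendsto.comp (tendsto_natCast_atTop_atTop (R := ℝ))
  have h1 := (h.eventually (Ioo_mem_nhds (show (0.9 : ℝ) < 1 by norm_num)
    (show (1 : ℝ) < 1.1 by norm_num)))
  obtain ⟨x1, hx1⟩ := Filter.eventually_atTop.mp h1
  refine ⟨x1 + 1, fun n hn => ?_⟩
  have h2 := hx1 n (by omega)
  have hn0 : (0 : ℝ) < n := by
    have : 0 < n := by omega
    exact_mod_cast this
  simp only [Function.comp] at h2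
  have h3 := h2.1
  have h4 := h2.2
  rw [lt_div_iff₀ hn0] at h3
  rw [div_lt_iff₀ hn0] at h4
  exact ⟨h3.le, h4.le⟩

theorem count : ∃ X0 : ℕ, ∀ X : ℕ, X0 ≤ X →
    (X : ℝ) / (200 * Real.log X) ≤
      (((range (X + 1)).filter (fun q => q.Prime ∧ ¬ q ^ 2 ∣ 2 ^ (q - 1) - 1)).card : ℝ) := by
  obtain ⟨P0, hP⟩ := below_W
  obtain ⟨x1, hx⟩ := Count_theta
  refine ⟨2 * P0 + 2 * x1 + 10, fun X hX => ?_⟩
  set Y := X / 2 with hY
  have hY1 : 2 * Y ≤ X := by omega
  have hY2 : X < 2 * (Y + 1) := by omega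
  have hXr : (10 : ℝ) ≤ X := by
    have : 10 ≤ X := by omega
    exact_mod_cast this
  have hlogX : 0 < Real.log X := Real.log_pos (by linarith)
  by_cases hW : ∃ p, Y < p ∧ p ≤ X ∧ IsW p
  · obtain ⟨p, hp1, hp2, hp3⟩ := hW
    have h1 := hP p (by omega) hp3
    have hpr : (X : ℝ) ≤ 2 * p := by
      have : X ≤ 2 * p := by omega
      exact_mod_cast this
    have hp2r : (p : ℝ) ≤ X := by exact_mod_cast hp2
    have hp1r : (1 : ℝ) < p := by linarith
    have hlogp : 0 < Real.log p := Real.log_pos hp1r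
    have hlog : Real.log p ≤ Real.log X := Real.log_le_log (by linarith) hp2r
    have h2 : (X : ℝ) / (200 * Real.log X) ≤ (p : ℝ) / (100 * Real.log p) := by
      rw [div_le_div_iff₀ (by positivity) (by positivity)]
      calc (X : ℝ) * (100 * Real.log p) ≤ (2 * p) * (100 * Real.log X) := by
            apply mul_le_mul hpr (by linarith) (by positivity) (by positivity)
        _ = p * (200 * Real.log X) := by ring
    refine h2.trans (h1.trans ?_)
    refine Nat.cast_le.mpr (card_le_card ?_)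
    intro q hq
    simp only [mem_filter, mem_range] at hq ⊢
    exact ⟨by omega, hq.2.1, fun h => hq.2.2 ⟨hq.2.1, h⟩⟩
  · have hsub : ((Ioc Y X).filter Nat.Prime) ⊆
        ((range (X + 1)).filter (fun q => q.Prime ∧ ¬ q ^ 2 ∣ 2 ^ (q - 1) - 1)) := by
      intro q hq
      rw [mem_filter, mem_Ioc] at hq
      rw [mem_filter, mem_range]
      refine ⟨by omega, hq.2, fun h => hW ⟨q, hq.1.1, hq.1.2, hq.2, h⟩⟩
    have h1 := (hx X (by omega)).1
    have h2 := (hx Y (by omega)).2
    have hYr : (2 : ℝ) * Y ≤ X := by exact_mod_cast hY1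
    have h3 : Chebyshev.theta (X : ℝ) - Chebyshev.theta (Y : ℝ) =
        ∑ q ∈ (Ioc Y X).filter Nat.Prime, Real.log q := by
      unfold Chebyshev.theta
      rw [Nat.floor_natCast, Nat.floor_natCast]
      have hu : (Ioc 0 X).filter Nat.Prime = (Ioc 0 Y).filter Nat.Prime ∪
          (Ioc Y X).filter Nat.Prime := by
        rw [← filter_union, Ioc_union_Ioc_eq_Ioc (Nat.zero_le _) (by omega)]
      have hd : Disjoint ((Ioc 0 Y).filter Nat.Prime) ((Ioc Y X).filter Nat.Prime) := by
        rw [disjoint_left]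
        intro q hq hq'
        rw [mem_filter, mem_Ioc] at hq hq'
        omega
      rw [hu, sum_union hd]
      ring
    have h4 : ∑ q ∈ (Ioc Y X).filter Nat.Prime, Real.log q ≤
        (((Ioc Y X).filter Nat.Prime).card : ℝ) * Real.log X := by
      rw [← nsmul_eq_mul]
      apply sum_le_card_nsmul
      intro q hq
      rw [mem_filter, mem_Ioc] at hq
      apply Real.log_le_log
      · exact_mod_cast hq.2.pos
      · exact_mod_cast hq.1.2
    have h5 : (((Ioc Y X).filter Nat.Prime).card : ℝ) ≤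
        (((range (X + 1)).filter (fun q => q.Prime ∧ ¬ q ^ 2 ∣ 2 ^ (q - 1) - 1)).card : ℝ) := by
      exact_mod_cast card_le_card hsub
    rw [div_le_iff₀ (by positivity)]
    have h6 := mul_le_mul_of_nonneg_right h5 hlogX.le
    nlinarith

end Wief
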