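import Mathlib

/-!
# A determinant for the Wieferich primes: definitions

`r ≥ 1`, `n = 2 r` poles `-j`, `0 ≤ j < 2 r`, and `m ≤ r` binomials `C(t + c_l, l)`, `c_l = r + l/2`.
For a prime `p > 2 r` put `Ω_p = {2, 4, ..., 2 M}`, `M = MM p r = (p-1)/2 - r` (so `t + j < p` on `Ω_p`).
`A r m` is an explicit integer matrix which is, modulo every Wieferich prime `p > 2 r`, the Gram matrix
of the functions `s_j / (t + j)` and `2^(l+1) C(t + c_l, l)` on `Ω_p` (module `MGram`).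
-/

set_option autoImplicit false

open Finset

namespace Wief

/-- the larger distance of `j` to the ends of `0, ..., 2r-1` -/
def mx (r j : ℕ) : ℕ := max j (2 * r - 1 - j)

/-- the scale `s_j = lcm(1, ..., mx r j)` of the pole `-j` -/
def sc (r j : ℕ) : ℕ := Nat.lcmUpto (mx r j)

/-- the shift `c_l` -/
def cc (r l : ℕ) : ℕ := r + l / 2

/-- `s_j X_j`, `X_j = - ∑_{t ≤ j, t ≡ j (2)} 1/t + ∑_{i ≤ 2r-1-j, i ≢ j (2)} 1/i` -/
def xz (r j : ℕ) : ℤ :=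
  -(∑ t ∈ (Icc 1 j).filter (fun t => t % 2 = j % 2), ((sc r j / t : ℕ) : ℤ)) +
    ∑ i ∈ (Icc 1 (2 * r - 1 - j)).filter (fun i => i % 2 ≠ j % 2), ((sc r j / i : ℕ) : ℤ)

/-- `s_j^2 Y_j`, `Y_j = - ∑_{t ≤ j, t ≡ j (2)} 1/t^2 - ∑_{i ≤ 2r-1-j, i ≢ j (2)} 1/i^2` -/
def yz (r j : ℕ) : ℤ :=
  -(∑ t ∈ (Icc 1 j).filter (fun t => t % 2 = j % 2), ((sc r j / t : ℕ) : ℤ) ^ 2) -
    ∑ i ∈ (Icc 1 (2 * r - 1 - j)).filter (fun i => i % 2 ≠ j % 2), ((sc r j / i : ℕ) : ℤ) ^ 2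

/-- `2^(D+1) L(f)` for an integer valued polynomial `f` of degree at most `D`:
`L(f) = - ∑_{i<r} f(-2i) - ∑_{k≤D} (-1)^k/2^(k+1) (Δ^k f)(1-2r)` -/
def LPz (r D : ℕ) (f : ℤ → ℤ) : ℤ :=
  -(2 ^ (D + 1) * ∑ i ∈ range r, f (-2 * (i : ℤ))) -
    ∑ k ∈ range (D + 1), (-1) ^ k * 2 ^ (D - k) * ((fwdDiff (1 : ℤ))^[k] f (1 - 2 * (r : ℤ)))

/-- the binomial `C(t + c_l, l)` -/
noncomputable def ph (r l : ℕ) (t : ℤ) : ℤ := Ring.choose (t + (cc r l : ℤ)) l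

/-- `s_j (C(t + c_l, l) - C(c_l - j, l)) / (t + j)` -/
noncomputable def ps (r j l : ℕ) (t : ℤ) : ℤ :=
  ∑ k ∈ Icc 1 l, Ring.choose ((cc r l : ℤ) - j) (l - k) * ((sc r j / k : ℕ) : ℤ) *
    Ring.choose (t + j - 1) (k - 1)

/-- the index set: `2 r` poles and `m` binomials -/
abbrev Ix (r m : ℕ) : Type := Fin (2 * r) ⊕ Fin m

/-- the entries pole x pole -/
def App (r j k : ℕ) : ℤ :=
  if j = k then yz r j else
    xz r j * ((sc r k : ℤ) / ((k : ℤ) - j)) - xz r k * ((sc r j : ℤ) / ((k : ℤ) - j))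

/-- the entries pole x binomial -/
noncomputable def Apl (r j l : ℕ) : ℤ :=
  2 ^ (l + 1) * ph r l (-(j : ℤ)) * xz r j + LPz r l (ps r j l)

/-- the entries binomial x binomial -/
noncomputable def All (r l l' : ℕ) : ℤ := 2 * LPz r (l + l') (fun t => ph r l t * ph r l' t)

/-- the matrix -/
noncomputable def A (r m : ℕ) : Matrix (Ix r m) (Ix r m) ℤ :=
  Matrix.of fun a b =>
    Sum.elim (fun j : Fin (2 * r) => Sum.elim (fun k : Fin (2 * r) => App r j k)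
      (fun l : Fin m => Apl r j l) b)
      (fun l : Fin m => Sum.elim (fun j : Fin (2 * r) => Apl r j l) (fun l' : Fin m => All r l l') b) a

/-- the number of elements of `Ω_p` -/
def MM (p r : ℕ) : ℕ := (p - 1) / 2 - r

/-- the functions modulo `p` on `Ω_p` (`t = 2 (u + 1)`, `u < MM p r`) -/
noncomputable def V (p r m : ℕ) : Matrix (Fin (MM p r)) (Ix r m) (ZMod p) :=
  Matrix.of fun u a =>
    Sum.elim (fun j : Fin (2 * r) => (sc r j : ZMod p) * (((2 * ((u : ℕ) + 1) + j : ℕ) : ZMod p))⁻¹)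
      (fun l : Fin m => 2 ^ ((l : ℕ) + 1) * (((2 * ((u : ℕ) + 1) + cc r l).choose l : ℕ) : ZMod p)) a

/-- the size of the rows -/
def Sz (r m : ℕ) : Ix r m → ℕ :=
  Sum.elim (fun j : Fin (2 * r) => sc r j) (fun l : Fin m => 2 ^ ((l : ℕ) + 1) * 2 ^ cc r l)

/-- `p` is a Wieferich prime -/
def IsW (p : ℕ) : Prop := p.Prime ∧ p ^ 2 ∣ 2 ^ (p - 1) - 1

end Wief
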