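import Pool.Agent.Lib.Wief.Count

/-!
# Fin: from `2^(q-1)` to all exponents
-/

set_option autoImplicit false

open Finset

namespace Wief

/-- if `q^2 ∣ 2^k - 1` and `q ∤ k` then `q` is a Wieferich prime -/
theorem wief_of_dvd {q k : ℕ} (hq : q.Prime) (hk : ¬ q ∣ k) (h : q ^ 2 ∣ 2 ^ k - 1) :
    q ^ 2 ∣ 2 ^ (q - 1) - 1 := by
  have hk0 : k ≠ 0 := by
    rintro rfl
    exact hk (dvd_zero q)
  have h2 : q ≠ 2 := by
    rintro rfl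
    have h3 : (2 : ℕ) ∣ 2 ^ k - 1 := (dvd_pow_self 2 (by norm_num)).trans h
    have h4 : (2 : ℕ) ∣ 2 ^ k := dvd_pow_self 2 hk0
    have h5 : 1 ≤ 2 ^ k := Nat.one_le_two_pow
    omega
  have hc : Nat.Coprime 2 (q ^ 2) := by
    rw [Nat.coprime_pow_right_iff (by norm_num)]
    exact (Nat.coprime_primes Nat.prime_two hq).2 (Ne.symm h2)
  have h1 : (2 : ZMod (q ^ 2)) ^ k = 1 := by
    have h5 : 1 ≤ 2 ^ k := Nat.one_le_two_pow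
    have := (ZMod.natCast_eq_zero_iff (2 ^ k - 1) (q ^ 2)).2 h
    rw [Nat.cast_sub h5] at this
    push_cast at this
    exact sub_eq_zero.1 this
  have hphi : (2 : ZMod (q ^ 2)) ^ (q * (q - 1)) = 1 := by
    have h6 := Nat.ModEq.pow_totient hc
    rw [Nat.totient_prime_pow hq (by norm_num)] at h6
    have h7 := (ZMod.natCast_eq_natCast_iff _ _ _).2 h6
    push_cast at h7
    simpa using h7
  have hg : (2 : ZMod (q ^ 2)) ^ Nat.gcd k (q * (q - 1)) = 1 := by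
    have e1 := orderOf_dvd_of_pow_eq_one h1
    have e2 := orderOf_dvd_of_pow_eq_one hphi
    exact orderOf_dvd_iff_pow_eq_one.1 (Nat.dvd_gcd e1 e2)
  have hgc : Nat.gcd k (q * (q - 1)) ∣ q - 1 := by
    have hkq : Nat.Coprime k q := ((Nat.Prime.coprime_iff_not_dvd hq).2 hk).symm
    have hg1 : Nat.Coprime (Nat.gcd k (q * (q - 1))) q :=
      Nat.Coprime.coprime_dvd_left (Nat.gcd_dvd_left _ _) hkq
    exact hg1.dvd_of_dvd_mul_left (Nat.gcd_dvd_right _ _)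
  have hfin : (2 : ZMod (q ^ 2)) ^ (q - 1) = 1 := by
    obtain ⟨c, hc⟩ := hgc
    rw [hc, pow_mul, hg, one_pow]
  have h5 : 1 ≤ 2 ^ (q - 1) := Nat.one_le_two_pow
  rw [← ZMod.natCast_eq_zero_iff, Nat.cast_sub h5]
  push_cast
  rw [hfin, sub_self]

theorem wief_of_dvd_add {q k : ℕ} (hq : q.Prime) (hk : ¬ q ∣ k) (h : q ^ 2 ∣ 2 ^ k + 1) :
    q ^ 2 ∣ 2 ^ (q - 1) - 1 := by
  have hk0 : k ≠ 0 := by
    rintro rfl
    exact hk (dvd_zero q)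
  have h2 : q ≠ 2 := by
    rintro rfl
    have h3 : (2 : ℕ) ∣ 2 ^ k + 1 := (dvd_pow_self 2 (by norm_num)).trans h
    have h4 : (2 : ℕ) ∣ 2 ^ k := dvd_pow_self 2 hk0
    omega
  have hk2 : ¬ q ∣ k * 2 := by
    intro hd
    rcases hq.dvd_mul.1 hd with hd | hd
    · exact hk hd
    · exact h2 ((Nat.prime_dvd_prime_iff_eq hq Nat.prime_two).1 hd)
  refine wief_of_dvd hq hk2 (h.trans ?_)
  refine ⟨2 ^ k - 1, ?_⟩
  rw [pow_mul, ← Nat.sq_sub_sq (2 ^ k) 1, one_pow]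

theorem count_all : ∃ X0 : ℕ, ∀ X : ℕ, X0 ≤ X →
    (X : ℝ) / (200 * Real.log X) ≤
      (({q : ℕ | q ≤ X ∧ q.Prime ∧ ∀ k : ℕ, ¬ q ∣ k →
        ¬ q ^ 2 ∣ 2 ^ k - 1 ∧ ¬ q ^ 2 ∣ 2 ^ k + 1} : Set ℕ).ncard : ℝ) := by
  obtain ⟨X0, h⟩ := count
  refine ⟨X0, fun X hX => (h X hX).trans ?_⟩
  have hfin : ({q : ℕ | q ≤ X ∧ q.Prime ∧ ∀ k : ℕ, ¬ q ∣ k →
        ¬ q ^ 2 ∣ 2 ^ k - 1 ∧ ¬ q ^ 2 ∣ 2 ^ k + 1} : Set ℕ).Finite :=
    (Set.finite_Iic X).subset fun q hq => hq.1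
  have hsub : (((range (X + 1)).filter (fun q => q.Prime ∧ ¬ q ^ 2 ∣ 2 ^ (q - 1) - 1) :
      Finset ℕ) : Set ℕ) ⊆ {q : ℕ | q ≤ X ∧ q.Prime ∧ ∀ k : ℕ, ¬ q ∣ k →
        ¬ q ^ 2 ∣ 2 ^ k - 1 ∧ ¬ q ^ 2 ∣ 2 ^ k + 1} := by
    intro q hq
    have hq' := Finset.mem_filter.1 (Finset.mem_coe.1 hq)
    exact ⟨by have := Finset.mem_range.1 hq'.1; omega, hq'.2.1, fun k hk =>
      ⟨fun hd => hq'.2.2 (wief_of_dvd hq'.2.1 hk hd),
        fun hd => hq'.2.2 (wief_of_dvd_add hq'.2.1 hk hd)⟩⟩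
  have h1 := Set.ncard_le_ncard hsub hfin
  rw [Set.ncard_coe_finset] at h1
  exact_mod_cast h1

end Wief
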