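import Pool.Agent.Lib.Wief.MPole

/-!
# MGa: the entries pole x pole modulo a Wieferich prime

PROOF. `t = 2(u+1)`, `u < MM p r`. `j = k`: `sum_yz`. `j ≠ k`: `1 ≤ |k-j| ≤ 2r-1 < p`, and
`|k-j| ≤ mx r j, mx r k` (if `k > j`: `k - j ≤ k ≤ mx r k` and `k - j ≤ 2r-1-j ≤ mx r j`; symmetric), so
`k-j` divides `s_j` and `s_k` (`dvd_sc`, signs) and is a unit mod `p`: `(s_k/(k-j) : ℤ)` is
`s_k (k-j)⁻¹` in `ZMod p`. Partial fractions `1/((t+j)(t+k)) = (k-j)⁻¹ (1/(t+j) - 1/(t+k))` (`t+j`, `t+k`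
are units: `0 < t + j ≤ 2 MM + 2r - 1 < p`), and `sum_xz` for `j` and `k`.
-/

set_option autoImplicit false

open Finset

namespace Wief

private theorem mga_dvd {r j : ℕ} (d : ℤ) (hd : d ≠ 0) (h : d.natAbs ≤ mx r j) :
    d ∣ (sc r j : ℤ) := by
  rw [← Int.natAbs_dvd_natAbs, Int.natAbs_natCast]
  exact dvd_sc (Int.natAbs_pos.2 hd) h

private theorem mga_div {p : ℕ} [Fact p.Prime] {d : ℤ} {s : ℕ} (hd : (d : ZMod p) ≠ 0)
    (h : d ∣ (s : ℤ)) : (((s : ℤ) / d : ℤ) : ZMod p) = (s : ZMod p) * (d : ZMod p)⁻¹ := by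
  rw [eq_mul_inv_iff_mul_eq₀ hd, ← Int.cast_mul, Int.ediv_mul_cancel h, Int.cast_natCast]

private theorem mga_unit {p r j u : ℕ} (hr : 2 * r < p) (hj : j < 2 * r) (hu : u < MM p r) :
    ((2 * (u + 1) + j : ℕ) : ZMod p) ≠ 0 := by
  intro h
  rw [ZMod.natCast_eq_zero_iff] at h
  have h1 := Nat.le_of_dvd (by omega) h
  unfold MM at hu
  omega

theorem gram_pp {p r j k : ℕ} (hw : IsW p) (h3 : 3 < p) (hr : 2 * r < p) (hj : j < 2 * r)
    (hk : k < 2 * r) :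
    ∑ u : Fin (MM p r), ((sc r j : ZMod p) * (((2 * ((u : ℕ) + 1) + j : ℕ) : ZMod p))⁻¹) *
      ((sc r k : ZMod p) * (((2 * ((u : ℕ) + 1) + k : ℕ) : ZMod p))⁻¹) = (App r j k : ℤ) := by
  have : Fact p.Prime := ⟨hw.1⟩
  unfold App
  by_cases hjk : j = k
  · subst hjk
    rw [if_pos rfl, ← sum_yz hw h3 hr hj]
    exact Finset.sum_congr rfl fun u _ => (sq _).symm
  rw [if_neg hjk]
  have hd : ((k : ℤ) - j) ≠ 0 := by
    intro h
    apply hjk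
    omega
  have hdp : (((k : ℤ) - j : ℤ) : ZMod p) ≠ 0 := by
    intro h
    rw [ZMod.intCast_zmod_eq_zero_iff_dvd] at h
    have h1 := Int.le_of_dvd (abs_pos.2 hd) ((dvd_abs _ _).2 h)
    rcases abs_cases ((k : ℤ) - j) with h2 | h2 <;> omega
  have hsj : ((k : ℤ) - j) ∣ (sc r j : ℤ) := mga_dvd _ hd (by unfold mx; omega)
  have hsk : ((k : ℤ) - j) ∣ (sc r k : ℤ) := mga_dvd _ hd (by unfold mx; omega)
  have hxj := sum_xz hw h3 hr hj
  have hxk := sum_xz hw h3 hr hk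
  rw [Int.cast_sub, Int.cast_mul, Int.cast_mul, mga_div hdp hsk, mga_div hdp hsj, ← hxj, ← hxk,
    Finset.sum_mul, Finset.sum_mul, ← Finset.sum_sub_distrib]
  refine Finset.sum_congr rfl fun u _ => ?_
  have h1 := mga_unit (r := r) hr hj u.2
  have h2 := mga_unit (r := r) hr hk u.2
  have h3 : (((k : ℤ) - j : ℤ) : ZMod p) =
      ((2 * ((u : ℕ) + 1) + k : ℕ) : ZMod p) - ((2 * ((u : ℕ) + 1) + j : ℕ) : ZMod p) := by
    push_cast
    ring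
  rw [h3] at hdp ⊢
  field_simp

end Wief
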