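import Pool.Agent.Lib.Wief.Defs

/-!
# MPoly: the sum of an integer valued polynomial over Omega_p

PROOF. `b_k = (Δ^k f)(1 - 2r)`, `h(t) = f(t + 1 - 2r)`; for natural `t`: `h(t) = ∑_{k≤D} C(t,k) b_k`
(`shift_eq_sum_fwdDiff_iter` with base `1 - 2r` and `hf`: the differences of order `> D` vanish).
1. `∑_{t<p} C(t,k) = C(p,k+1)`, `≡ 0 mod p` for `k + 1 < p` (`Nat.sum_range_choose_...`,
   `Nat.Prime.dvd_choose_self`), so `∑_{t<p} h(t) ≡ 0`.
2. `S_k = ∑_{t<p} (-1)^t C(t,k)`: `S_0 = 1` (`p` odd) and `2 S_k + S_{k-1} = C(p,k)` for `k ≥ 1` (sum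
   `(-1)^t C(t+1,k)` over `t < p` in two ways), so `2^k S_k ≡ (-1)^k mod p` for `k < p`. Hence
   `2^(D+1) ∑_{t<p} (-1)^t h(t) ≡ 2 ∑_{k≤D} (-1)^k 2^(D-k) b_k`.
3. `2 ∑_{t<p odd} h(t) = ∑_{t<p} h(t) - ∑_{t<p} (-1)^t h(t)`; `2` is invertible mod `p`, so
   `2^(D+1) ∑_{t<p odd} h(t) ≡ - ∑_{k≤D} (-1)^k 2^(D-k) b_k`.
4. the odd `t < p` are `2i+1`, `0 ≤ i < (p-1)/2`; `h(2i+1) = f(2i+2-2r)`: for `i < r` these are the
   values `f(-2i')`, `i' = r-1-i < r`, and for `i ≥ r` the values `f(2(u+1))`, `u = i - r < MM p r`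
   (`(p-1)/2 = r + MM p r` because `2r < p`).
-/

set_option autoImplicit false

open Finset

namespace Wief

private theorem MPoly_split {R : Type*} [AddCommMonoid R] (g : ℕ → R) (q : ℕ) :
    ∑ t ∈ range (2 * q + 1), g t =
      ∑ i ∈ range (q + 1), g (2 * i) + ∑ i ∈ range q, g (2 * i + 1) := by
  induction q with
  | zero => simp
  | succ q ih =>
    rw [show 2 * (q + 1) + 1 = (2 * q + 1) + 1 + 1 by ring, sum_range_succ, sum_range_succ, ih,
      sum_range_succ (fun i => g (2 * i)) (q + 1), sum_range_succ (fun i => g (2 * i + 1)) q,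
      show 2 * (q + 1) = 2 * q + 1 + 1 by ring]
    abel

private theorem MPoly_sum_choose (n k : ℕ) : ∑ t ∈ range n, t.choose k = n.choose (k + 1) := by
  induction n with
  | zero => simp
  | succ n ih => rw [sum_range_succ, ih, Nat.choose_succ_succ, add_comm]

private theorem MPoly_alt (n k : ℕ) :
    2 * ∑ t ∈ range n, (-1 : ℤ) ^ t * (t.choose (k + 1) : ℤ) +
      ∑ t ∈ range n, (-1 : ℤ) ^ t * (t.choose k : ℤ) = -(-1) ^ n * (n.choose (k + 1) : ℤ) := by
  induction n with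
  | zero => simp
  | succ n ih =>
    rw [sum_range_succ, sum_range_succ, Nat.choose_succ_succ, pow_succ]
    push_cast
    linear_combination ih

private theorem MPoly_alt0 (n : ℕ) :
    2 * ∑ t ∈ range n, (-1 : ℤ) ^ t * (t.choose 0 : ℤ) = 1 - (-1) ^ n := by
  induction n with
  | zero => simp
  | succ n ih =>
    rw [sum_range_succ, pow_succ, mul_add, ih]
    simp
    ring

private theorem MPoly_two {p : ℕ} (hp : p.Prime) (h2 : p ≠ 2) : (2 : ZMod p) ≠ 0 := by
  intro h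
  have h1 : ((2 : ℕ) : ZMod p) = 0 := by exact_mod_cast h
  rw [ZMod.natCast_eq_zero_iff] at h1
  exact h2 ((Nat.prime_dvd_prime_iff_eq hp Nat.prime_two).1 h1)

private theorem MPoly_S {p : ℕ} (hp : p.Prime) (h2 : p ≠ 2) (k : ℕ) (hk : k < p) :
    (2 : ZMod p) ^ k * ∑ t ∈ range p, (-1 : ZMod p) ^ t * (t.choose k : ZMod p) = (-1) ^ k := by
  have := Fact.mk hp
  have hodd : Odd p := hp.odd_of_ne_two h2
  induction k with
  | zero =>
    have h := congrArg (fun z : ℤ => (z : ZMod p)) (MPoly_alt0 p)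
    push_cast at h
    rw [hodd.neg_one_pow] at h
    have h3 : (2 : ZMod p) * (∑ t ∈ range p, (-1 : ZMod p) ^ t * (t.choose 0 : ZMod p)) = 2 * 1 := by
      rw [h]; ring
    have h4 := mul_left_cancel₀ (MPoly_two hp h2) h3
    rw [h4]; simp
  | succ k ih =>
    have ih' := ih (by omega)
    have h := congrArg (fun z : ℤ => (z : ZMod p)) (MPoly_alt p k)
    push_cast at h
    have h0 : ((p.choose (k + 1) : ℕ) : ZMod p) = 0 := by
      rw [ZMod.natCast_eq_zero_iff]
      exact hp.dvd_choose_self (by omega) hk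
    rw [h0, mul_zero] at h
    have h5 : (2 : ZMod p) * ∑ t ∈ range p, (-1 : ZMod p) ^ t * (t.choose (k + 1) : ZMod p) =
        -∑ t ∈ range p, (-1 : ZMod p) ^ t * (t.choose k : ZMod p) := by
      linear_combination h
    rw [pow_succ, mul_assoc, h5, mul_neg, ih', pow_succ]
    ring

private theorem MPoly_iter_zero (j : ℕ) : (fwdDiff (1 : ℤ))^[j] (fun _ : ℤ => (0 : ℤ)) =
    fun _ => 0 := by
  induction j with
  | zero => rfl
  | succ j ih =>
    rw [Function.iterate_succ_apply']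
    rw [ih]
    funext x
    simp [fwdDiff]

private theorem MPoly_vanish {D : ℕ} {f : ℤ → ℤ}
    (hf : ∀ x, (fwdDiff (1 : ℤ))^[D + 1] f x = 0) (k : ℕ) (hk : D < k) (x : ℤ) :
    (fwdDiff (1 : ℤ))^[k] f x = 0 := by
  obtain ⟨j, rfl⟩ : ∃ j, k = j + (D + 1) := ⟨k - (D + 1), by omega⟩
  rw [Function.iterate_add_apply]
  have h : (fwdDiff (1 : ℤ))^[D + 1] f = fun _ => 0 := funext hf
  rw [h, MPoly_iter_zero]

private theorem MPoly_newton {D : ℕ} {f : ℤ → ℤ}
    (hf : ∀ x, (fwdDiff (1 : ℤ))^[D + 1] f x = 0) (y : ℤ) (t : ℕ) :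
    f (y + t) = ∑ k ∈ range (D + 1), (t.choose k : ℤ) * (fwdDiff (1 : ℤ))^[k] f y := by
  have h := shift_eq_sum_fwdDiff_iter (1 : ℤ) f t y
  have h1 : y + t • (1 : ℤ) = y + t := by simp
  rw [h1] at h
  rw [h]
  have e1 : ∑ k ∈ range (t + 1), t.choose k • (fwdDiff (1 : ℤ))^[k] f y =
      ∑ k ∈ range (t + D + 2), (t.choose k : ℤ) * (fwdDiff (1 : ℤ))^[k] f y := by
    have e : ∑ k ∈ range (t + 1), t.choose k • (fwdDiff (1 : ℤ))^[k] f y =
        ∑ k ∈ range (t + 1), (t.choose k : ℤ) * (fwdDiff (1 : ℤ))^[k] f y :=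
      sum_congr rfl fun k _ => by simp
    rw [e]
    refine sum_subset (range_subset_range.2 (by omega)) fun k _ hk => ?_
    rw [mem_range, not_lt] at hk
    rw [Nat.choose_eq_zero_of_lt (by omega)]
    simp
  have e2 : ∑ k ∈ range (D + 1), (t.choose k : ℤ) * (fwdDiff (1 : ℤ))^[k] f y =
      ∑ k ∈ range (t + D + 2), (t.choose k : ℤ) * (fwdDiff (1 : ℤ))^[k] f y := by
    refine sum_subset (range_subset_range.2 (by omega)) fun k _ hk => ?_
    rw [mem_range, not_lt] at hk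
    rw [MPoly_vanish hf k (by omega), mul_zero]
  rw [e1, e2]

theorem sum_poly {p r D : ℕ} (hp : p.Prime) (h2 : p ≠ 2) (hr : 2 * r < p) (hD : D + 1 < p)
    (f : ℤ → ℤ) (hf : ∀ x, (fwdDiff (1 : ℤ))^[D + 1] f x = 0) :
    (2 : ZMod p) ^ (D + 1) * ∑ u : Fin (MM p r), ((f (2 * (((u : ℕ) : ℤ) + 1)) : ℤ) : ZMod p) =
      (LPz r D f : ℤ) := by
  have := Fact.mk hp
  have hodd : Odd p := hp.odd_of_ne_two h2
  obtain ⟨q, hq⟩ := hodd
  set y : ℤ := 1 - 2 * (r : ℤ) with hy
  set b : ℕ → ZMod p := fun k => (((fwdDiff (1 : ℤ))^[k] f y : ℤ) : ZMod p) with hb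
  set H : ℕ → ZMod p := fun t => ((f (y + t) : ℤ) : ZMod p) with hH
  have hN : ∀ t, H t = ∑ k ∈ range (D + 1), (t.choose k : ZMod p) * b k := by
    intro t
    rw [hH]
    simp only
    rw [MPoly_newton hf y t]
    push_cast
    rfl
  -- the full sum vanishes
  have s1 : ∑ t ∈ range p, H t = 0 := by
    rw [sum_congr rfl fun t _ => hN t, sum_comm]
    refine sum_eq_zero fun k hk => ?_
    rw [mem_range] at hk
    rw [← sum_mul]
    have h := congrArg (fun z : ℕ => (z : ZMod p)) (MPoly_sum_choose p k)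
    push_cast at h
    rw [h]
    have h0 : ((p.choose (k + 1) : ℕ) : ZMod p) = 0 := by
      rw [ZMod.natCast_eq_zero_iff]
      exact hp.dvd_choose_self (by omega) (by omega)
    rw [h0, zero_mul]
  -- the alternating sum
  have s2 : (2 : ZMod p) ^ (D + 1) * ∑ t ∈ range p, (-1 : ZMod p) ^ t * H t =
      2 * ∑ k ∈ range (D + 1), (-1) ^ k * 2 ^ (D - k) * b k := by
    have e : ∑ t ∈ range p, (-1 : ZMod p) ^ t * H t = ∑ k ∈ range (D + 1),
        (∑ t ∈ range p, (-1 : ZMod p) ^ t * (t.choose k : ZMod p)) * b k := by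
      rw [sum_congr rfl fun t _ => by rw [hN t, mul_sum], sum_comm]
      refine sum_congr rfl fun k _ => ?_
      rw [sum_mul]
      exact sum_congr rfl fun t _ => by ring
    rw [e, mul_sum, mul_sum]
    refine sum_congr rfl fun k hk => ?_
    rw [mem_range] at hk
    have h := MPoly_S hp h2 k (by omega)
    have e2 : (2 : ZMod p) ^ (D + 1) = 2 * 2 ^ (D - k) * 2 ^ k := by
      rw [mul_assoc, ← pow_add, ← pow_succ']
      congr 1
      omega
    rw [e2]
    linear_combination 2 * 2 ^ (D - k) * b k * h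
  -- the odd sum
  have s3 : 2 * ∑ i ∈ range q, H (2 * i + 1) =
      ∑ t ∈ range p, H t - ∑ t ∈ range p, (-1 : ZMod p) ^ t * H t := by
    have hrange : range p = range (2 * q + 1) := congrArg range hq
    rw [hrange, MPoly_split H q, MPoly_split (fun t => (-1 : ZMod p) ^ t * H t) q]
    have e1 : ∑ i ∈ range (q + 1), (-1 : ZMod p) ^ (2 * i) * H (2 * i) =
        ∑ i ∈ range (q + 1), H (2 * i) :=
      sum_congr rfl fun i _ => by rw [pow_mul]; simp
    have e2 : ∑ i ∈ range q, (-1 : ZMod p) ^ (2 * i + 1) * H (2 * i + 1) =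
        -∑ i ∈ range q, H (2 * i + 1) := by
      rw [← sum_neg_distrib]
      exact sum_congr rfl fun i _ => by rw [pow_succ, pow_mul]; simp
    simp only [e1, e2]
    ring
  have s4 : (2 : ZMod p) ^ (D + 1) * ∑ i ∈ range q, H (2 * i + 1) =
      -∑ k ∈ range (D + 1), (-1) ^ k * 2 ^ (D - k) * b k := by
    apply mul_left_cancel₀ (MPoly_two hp h2)
    linear_combination (2 : ZMod p) ^ (D + 1) * s3 + (2 : ZMod p) ^ (D + 1) * s1 - s2
  -- split the odd sum
  have hMM : q = r + MM p r := by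
    unfold MM
    omega
  have s5 : ∑ i ∈ range q, H (2 * i + 1) = ∑ i ∈ range r, ((f (-2 * (i : ℤ)) : ℤ) : ZMod p) +
      ∑ u : Fin (MM p r), ((f (2 * (((u : ℕ) : ℤ) + 1)) : ℤ) : ZMod p) := by
    rw [hMM, sum_range_add, Fin.sum_univ_eq_sum_range
      (fun u => ((f (2 * ((u : ℤ) + 1)) : ℤ) : ZMod p)) (MM p r)]
    congr 1
    · rw [← sum_range_reflect]
      refine sum_congr rfl fun i hi => ?_
      rw [mem_range] at hi
      rw [hH]
      simp only
      congr 2
      rw [hy]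
      have : ((r - 1 - i : ℕ) : ℤ) = (r : ℤ) - 1 - i := by omega
      push_cast
      rw [this]
      ring
    · refine sum_congr rfl fun u _ => ?_
      rw [hH]
      simp only
      congr 2
      rw [hy]
      push_cast
      ring
  have s6 : ((LPz r D f : ℤ) : ZMod p) =
      -((2 : ZMod p) ^ (D + 1) * ∑ i ∈ range r, ((f (-2 * (i : ℤ)) : ℤ) : ZMod p)) -
      ∑ k ∈ range (D + 1), (-1) ^ k * 2 ^ (D - k) * b k := by
    unfold LPz
    push_cast
    rfl
  rw [s6]
  rw [s5, mul_add] at s4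
  linear_combination s4

end Wief
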