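import Pool.Agent.Lib.Wief.MPole
import Pool.Agent.Lib.Wief.MPoly
import Pool.Agent.Lib.Wief.BinD

/-!
# MGb: the entries pole x binomial modulo a Wieferich prime

PROOF. `t = 2(u+1)`. `s_j C(t+c_l,l) = (t+j) ps(t) + s_j ph(-j)` (`ps_mul` and `ph_nat`, cast to `ZMod p`),
so `s_j (t+j)⁻¹ C(t+c_l,l) = ps(t) + ph(-j) s_j (t+j)⁻¹` (`t+j` is a unit, `0 < t+j < p`). Multiply by
`2^(l+1)` and sum: `sum_poly` with `D = l` (`deg_ps`, unfold `Dg`; `l + 1 < p`) and `sum_xz`.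
-/

set_option autoImplicit false

open Finset

namespace Wief

theorem gram_pl {p r j l : ℕ} (hw : IsW p) (h3 : 3 < p) (hr : 2 * r < p) (hj : j < 2 * r)
    (hl : l < r) :
    ∑ u : Fin (MM p r), ((sc r j : ZMod p) * (((2 * ((u : ℕ) + 1) + j : ℕ) : ZMod p))⁻¹) *
      (2 ^ (l + 1) * (((2 * ((u : ℕ) + 1) + cc r l).choose l : ℕ) : ZMod p)) = (Apl r j l : ℤ) := by
  have : Fact p.Prime := ⟨hw.1⟩
  have hterm : ∀ u : Fin (MM p r),
      ((sc r j : ZMod p) * (((2 * ((u : ℕ) + 1) + j : ℕ) : ZMod p))⁻¹) *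
      (2 ^ (l + 1) * (((2 * ((u : ℕ) + 1) + cc r l).choose l : ℕ) : ZMod p)) =
      2 ^ (l + 1) * ((ps r j l (2 * (((u : ℕ) : ℤ) + 1)) : ℤ) : ZMod p) +
        2 ^ (l + 1) * ((ph r l (-(j : ℤ)) : ℤ) : ZMod p) *
          ((sc r j : ZMod p) * (((2 * ((u : ℕ) + 1) + j : ℕ) : ZMod p))⁻¹) := by
    intro u
    have hu : (u : ℕ) < (p - 1) / 2 - r := u.2
    have hT : ((2 * ((u : ℕ) + 1) + j : ℕ) : ZMod p) ≠ 0 := by
      intro h0
      have h1 := (ZMod.natCast_eq_zero_iff _ _).1 h0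
      have h2 := Nat.le_of_dvd (by omega) h1
      omega
    have h1 := ps_mul (r := r) (j := j) (l := l) hj hl.le ((2 * ((u : ℕ) + 1) : ℕ) : ℤ)
    rw [ph_nat] at h1
    have h2 := congrArg (fun z : ℤ => (z : ZMod p)) h1
    simp only [Int.cast_mul, Int.cast_add, Int.cast_sub, Int.cast_natCast] at h2
    have h3' : (((2 * ((u : ℕ) + 1) : ℕ) : ℤ)) = 2 * (((u : ℕ) : ℤ) + 1) := by push_cast; ring
    rw [h3'] at h2
    have h4 : ((2 * ((u : ℕ) + 1) + j : ℕ) : ZMod p) =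
        ((2 * ((u : ℕ) + 1) : ℕ) : ZMod p) + (j : ZMod p) := by push_cast; ring
    rw [← h4] at h2
    have h5 : ((2 * ((u : ℕ) + 1) + j : ℕ) : ZMod p) * (((2 * ((u : ℕ) + 1) + j : ℕ) : ZMod p))⁻¹ = 1 :=
      mul_inv_cancel₀ hT
    generalize (((2 * ((u : ℕ) + 1) + j : ℕ) : ZMod p))⁻¹ = W at h5 ⊢
    generalize ((2 * ((u : ℕ) + 1) + j : ℕ) : ZMod p) = T at h2 h5
    generalize ((ps r j l (2 * (((u : ℕ) : ℤ) + 1)) : ℤ) : ZMod p) = P at h2 ⊢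
    generalize (((2 * ((u : ℕ) + 1) + cc r l).choose l : ℕ) : ZMod p) = C at h2 ⊢
    linear_combination (2 : ZMod p) ^ (l + 1) * P * h5 - (2 : ZMod p) ^ (l + 1) * W * h2
  rw [Finset.sum_congr rfl fun u _ => hterm u, Finset.sum_add_distrib, ← Finset.mul_sum,
    ← Finset.mul_sum, sum_xz hw h3 hr hj, sum_poly hw.1 (by omega) hr (by omega) (ps r j l) (deg_ps r j l)]
  unfold Apl
  push_cast
  ring

end Wief
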