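import Pool.Agent.Lib.Wief.BinV
import Pool.Agent.Lib.Wief.MPoly
import Pool.Agent.Lib.Wief.BinD

/-!
# MGc: the entries binomial x binomial modulo an odd prime

PROOF. `sum_poly` with `D = l + l'` (`deg_phph`, unfold `Dg`; `l + l' + 1 ≤ 2r - 1 < p`) and `ph_nat`;
`2^(l+1) 2^(l'+1) = 2 · 2^(l+l'+1)`.
-/

set_option autoImplicit false

open Finset

namespace Wief

theorem gram_ll {p r l l' : ℕ} (hp : p.Prime) (h2 : p ≠ 2) (hr : 2 * r < p) (hl : l < r)
    (hl' : l' < r) :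
    ∑ u : Fin (MM p r), (2 ^ (l + 1) * (((2 * ((u : ℕ) + 1) + cc r l).choose l : ℕ) : ZMod p)) *
      (2 ^ (l' + 1) * (((2 * ((u : ℕ) + 1) + cc r l').choose l' : ℕ) : ZMod p)) =
      (All r l l' : ℤ) := by
  have h := sum_poly (r := r) hp h2 hr (D := l + l') (by omega)
    (fun t => ph r l t * ph r l' t) (deg_phph r l l')
  have e : (All r l l' : ℤ) = 2 * LPz r (l + l') (fun t => ph r l t * ph r l' t) := rfl
  rw [e]
  push_cast
  rw [← h, Finset.mul_sum, Finset.mul_sum]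
  refine Finset.sum_congr rfl fun u _ => ?_
  have e1 : ((2 * (((u : ℕ) : ℤ) + 1)) : ℤ) = ((2 * ((u : ℕ) + 1) : ℕ) : ℤ) := by push_cast; ring
  rw [e1, ph_nat, ph_nat]
  push_cast
  ring

end Wief
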