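import Pool.Agent.Lib.Wief.MGa
import Pool.Agent.Lib.Wief.MGb
import Pool.Agent.Lib.Wief.MGc

/-!
# MGram: modulo a Wieferich prime the matrix `A` is the Gram matrix `Vᵀ V`
-/

set_option autoImplicit false

open Finset

namespace Wief

theorem A_mod {p r m : ℕ} (hw : IsW p) (h3 : 3 < p) (hr : 2 * r < p) (hm : m ≤ r) :
    (A r m).map (Int.cast : ℤ → ZMod p) = (V p r m).transpose * V p r m := by
  ext a b
  rw [Matrix.mul_apply]
  simp only [Matrix.map_apply, Matrix.transpose_apply]
  rcases a with j | l <;> rcases b with k | l'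
  · simp only [A, V, Matrix.of_apply, Sum.elim_inl]
    exact (gram_pp hw h3 hr j.2 k.2).symm
  · simp only [A, V, Matrix.of_apply, Sum.elim_inl, Sum.elim_inr]
    exact (gram_pl hw h3 hr j.2 (lt_of_lt_of_le l'.2 hm)).symm
  · simp only [A, V, Matrix.of_apply, Sum.elim_inl, Sum.elim_inr]
    rw [← gram_pl hw h3 hr k.2 (lt_of_lt_of_le l.2 hm)]
    exact Finset.sum_congr rfl fun u _ => mul_comm _ _
  · simp only [A, V, Matrix.of_apply, Sum.elim_inr]
    exact (gram_ll hw.1 (by omega) hr (lt_of_lt_of_le l.2 hm) (lt_of_lt_of_le l'.2 hm)).symm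

end Wief
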