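import Pool.Agent.Lib.Wief.Defs

/-!
# MInv: the sums of 1/t and 1/t^2 over the even and the odd residues (Wieferich)

PROOF. In `ZMod p`, `p > 3` prime.
1. `∑_{k=1}^{p-1} 1/k = 0` (pair `k`, `p-k`, `p` odd) and `∑_{k=1}^{p-1} 1/k^2 = 0` (multiply by `1/4`:
   `k ↦ 2k` permutes the units, so `S = S/4`, `3 S = 0`, `p ≠ 3`). The map `k ↦ p - k` exchanges the
   even and the odd `k`, so the sums of `1/k^2` over the even and over the odd `k` are equal: both `0`.
2. `C(p,k) = (p/k) C(p-1,k-1)` and `C(p-1,k-1) ≡ (-1)^(k-1) mod p`, so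
   `(2^p - 2)/p = ∑_{k=1}^{p-1} C(p,k)/p ≡ ∑_{k=1}^{p-1} (-1)^(k-1)/k mod p`. If `p^2 ∣ 2^(p-1) - 1` the
   left side is `0`. So the sum over the odd `k` equals the sum over the even `k`, their total is `0`:
   both are `0`.
-/

set_option autoImplicit false

open Finset

namespace Wief

private lemma MInv_all {p : ℕ} [hp : Fact p.Prime] (f : ZMod p → ZMod p) (h0 : f 0 = 0) :
    ∑ k ∈ Icc 1 (p - 1), f (k : ZMod p) = ∑ x : ZMod p, f x := by
  have h1 : ∑ k ∈ range p, f (k : ZMod p) = ∑ x : ZMod p, f x := by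
    refine Finset.sum_nbij' (fun k => (k : ZMod p)) ZMod.val ?_ ?_ ?_ ?_ ?_
    · intro k _
      exact mem_univ _
    · intro x _
      exact mem_range.2 (ZMod.val_lt x)
    · intro k hk
      exact ZMod.val_cast_of_lt (mem_range.1 hk)
    · intro x _
      exact ZMod.natCast_zmod_val x
    · intro k _
      rfl
  rw [← h1]
  have hp0 := hp.out.pos
  apply Finset.sum_subset
  · intro k hk
    rw [mem_Icc] at hk
    rw [mem_range]
    omega
  · intro k hk hk2
    rw [mem_range] at hk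
    rw [mem_Icc] at hk2
    have : k = 0 := by omega
    rw [this, Nat.cast_zero, h0]

private lemma MInv_pow {p : ℕ} [hp : Fact p.Prime] {i : ℕ} (h0 : 0 < i) (hi : i < p - 1) :
    ∑ k ∈ Icc 1 (p - 1), ((k : ZMod p))⁻¹ ^ i = 0 := by
  rw [MInv_all (fun x => x⁻¹ ^ i) (by simp [h0.ne'])]
  have h1 : ∑ x : ZMod p, x⁻¹ ^ i = ∑ x : ZMod p, x ^ i := by
    refine Finset.sum_nbij' (fun x => x⁻¹) (fun x => x⁻¹) ?_ ?_ ?_ ?_ ?_
    · intro k _
      exact mem_univ _
    · intro k _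
      exact mem_univ _
    · intro k _
      exact inv_inv k
    · intro k _
      exact inv_inv k
    · intro k _
      rfl
  rw [h1]
  apply FiniteField.sum_pow_lt_card_sub_one
  rwa [ZMod.card]

/-- exchange of the parity classes -/
private lemma MInv_swap {p : ℕ} [hp : Fact p.Prime] (h3 : 3 < p) (f : ℕ → ZMod p) (g : ℕ → ZMod p)
    (h : ∀ k, 1 ≤ k → k ≤ p - 1 → f k = g (p - k)) (e : ℕ) :
    ∑ t ∈ (Icc 1 (p - 1)).filter (fun t => t % 2 = e % 2), f t =
      ∑ t ∈ (Icc 1 (p - 1)).filter (fun t => t % 2 = (e + 1) % 2), g t := by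
  have hodd : p % 2 = 1 := by
    rcases hp.out.eq_two_or_odd with h2 | h2
    · omega
    · exact h2
  refine Finset.sum_nbij' (fun k => p - k) (fun k => p - k) ?_ ?_ ?_ ?_ ?_
  · intro k hk
    rw [mem_filter, mem_Icc] at hk ⊢
    omega
  · intro k hk
    rw [mem_filter, mem_Icc] at hk ⊢
    omega
  · intro k hk
    rw [mem_filter, mem_Icc] at hk
    change p - (p - k) = k
    omega
  · intro k hk
    rw [mem_filter, mem_Icc] at hk
    change p - (p - k) = k
    omega
  · intro k hk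
    rw [mem_filter, mem_Icc] at hk
    exact h k hk.1.1 hk.1.2

private lemma MInv_split {p : ℕ} (f : ℕ → ZMod p) (e : ℕ) :
    ∑ t ∈ (Icc 1 (p - 1)).filter (fun t => t % 2 = e % 2), f t +
      ∑ t ∈ (Icc 1 (p - 1)).filter (fun t => t % 2 = (e + 1) % 2), f t =
      ∑ t ∈ Icc 1 (p - 1), f t := by
  rw [← Finset.sum_filter_add_sum_filter_not (Icc 1 (p - 1)) (fun t => t % 2 = e % 2)]
  congr 1
  apply Finset.sum_congr _ (fun _ _ => rfl)
  apply Finset.filter_congr
  intro k _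
  constructor
  · intro h
    omega
  · intro h
    omega

private lemma MInv_cast {p k : ℕ} (hk : k ≤ p) : ((p - k : ℕ) : ZMod p) = -(k : ZMod p) := by
  rw [Nat.cast_sub hk, ZMod.natCast_self, zero_sub]

private lemma MInv_two {p : ℕ} [hp : Fact p.Prime] (h3 : 3 < p) : (2 : ZMod p) ≠ 0 := by
  intro h
  have h1 : ((2 : ℕ) : ZMod p) = 0 := by exact_mod_cast h
  rw [ZMod.natCast_eq_zero_iff] at h1
  have := Nat.le_of_dvd (by norm_num) h1
  omega

private lemma MInv_choose {p : ℕ} [hp : Fact p.Prime] (k : ℕ) (hk : k ≤ p - 1) :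
    (((p - 1).choose k : ℕ) : ZMod p) = (-1) ^ k := by
  induction k with
  | zero => simp
  | succ k ih =>
    have h1 := ih (by omega)
    have h2 : (p - 1).choose k + (p - 1).choose (k + 1) = p.choose (k + 1) := by
      have h := Nat.choose_succ_succ' (p - 1) k
      rw [Nat.sub_add_cancel hp.out.one_le] at h
      exact h.symm
    have h3 : p ∣ p.choose (k + 1) :=
      hp.out.dvd_choose_self (Nat.succ_ne_zero k) (by have := hp.out.one_lt; omega)
    have h4 : (((p - 1).choose k + (p - 1).choose (k + 1) : ℕ) : ZMod p) = 0 := by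
      rw [h2, ZMod.natCast_eq_zero_iff]
      exact h3
    rw [Nat.cast_add, h1] at h4
    rw [pow_succ]
    linear_combination h4

private lemma MInv_alt {p : ℕ} (hw : IsW p) :
    ∑ t ∈ Icc 1 (p - 1), (-1) ^ (t - 1) * ((t : ZMod p))⁻¹ = 0 := by
  obtain ⟨hp, hd⟩ := hw
  haveI : Fact p.Prime := ⟨hp⟩
  have hp2 := hp.two_le
  have h1 : ∑ t ∈ Icc 1 (p - 1), p.choose t = 2 ^ p - 2 := by
    have h := Nat.sum_range_choose p
    rw [Finset.sum_range_succ, Nat.choose_self] at h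
    have h2 : ∑ t ∈ range p, p.choose t = 1 + ∑ t ∈ Icc 1 (p - 1), p.choose t := by
      have e : range p = insert 0 (Icc 1 (p - 1)) := by
        ext x
        rw [mem_range, mem_insert, mem_Icc]
        omega
      rw [e, Finset.sum_insert (by rw [mem_Icc]; omega), Nat.choose_zero_right]
    omega
  have h2 : ∀ t ∈ Icc 1 (p - 1), p.choose t = p * (p.choose t / p) := by
    intro t ht
    rw [mem_Icc] at ht
    exact (Nat.mul_div_cancel' (hp.dvd_choose_self (by omega) (by omega))).symm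
  have h3 : p * ∑ t ∈ Icc 1 (p - 1), p.choose t / p = 2 ^ p - 2 := by
    rw [Finset.mul_sum, ← h1]
    exact Finset.sum_congr rfl (fun t ht => (h2 t ht).symm)
  have h4 : p ^ 2 ∣ 2 ^ p - 2 := by
    have e : 2 ^ p - 2 = 2 * (2 ^ (p - 1) - 1) := by
      rw [Nat.mul_sub, ← pow_succ', Nat.sub_add_cancel hp.one_le]
    rw [e]
    exact hd.mul_left 2
  have h5 : p ∣ ∑ t ∈ Icc 1 (p - 1), p.choose t / p := by
    rw [← h3, pow_two] at h4
    exact Nat.dvd_of_mul_dvd_mul_left hp.pos h4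
  have h6 : ((∑ t ∈ Icc 1 (p - 1), p.choose t / p : ℕ) : ZMod p) = 0 := by
    rw [ZMod.natCast_eq_zero_iff]
    exact h5
  rw [← h6, Nat.cast_sum]
  apply Finset.sum_congr rfl
  intro t ht
  have ht' := mem_Icc.1 ht
  have ht0 : ((t : ℕ) : ZMod p) ≠ 0 := by
    rw [Ne, ZMod.natCast_eq_zero_iff]
    intro h
    have := Nat.le_of_dvd (by omega) h
    omega
  have h7 : t * (p.choose t / p) = (p - 1).choose (t - 1) := by
    apply Nat.eq_of_mul_eq_mul_left hp.pos
    have h8 := Nat.add_one_mul_choose_eq (p - 1) (t - 1)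
    rw [Nat.sub_add_cancel hp.one_le, Nat.sub_add_cancel ht'.1] at h8
    rw [h8]
    calc p * (t * (p.choose t / p)) = (p * (p.choose t / p)) * t := by ring
      _ = p.choose t * t := by rw [← h2 t ht]
  have h9 : ((t : ℕ) : ZMod p) * ((p.choose t / p : ℕ) : ZMod p) = (-1) ^ (t - 1) := by
    rw [← MInv_choose (t - 1) (by omega), ← h7, Nat.cast_mul]
  rw [← h9]
  field_simp

theorem inv_parity {p : ℕ} (hw : IsW p) (h3 : 3 < p) (e : ℕ) :
    ∑ t ∈ (Icc 1 (p - 1)).filter (fun t => t % 2 = e % 2), ((t : ZMod p))⁻¹ = 0 := by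
  haveI : Fact p.Prime := ⟨hw.1⟩
  have h2 := MInv_two (p := p) h3
  have hA : ∑ k ∈ Icc 1 (p - 1), ((k : ZMod p))⁻¹ = 0 := by
    have := MInv_pow (p := p) (i := 1) one_pos (by omega)
    simpa using this
  have hS := MInv_split (p := p) (fun t => ((t : ZMod p))⁻¹) e
  have hT := MInv_split (p := p) (fun t => (-1) ^ (t - 1) * ((t : ZMod p))⁻¹) e
  rw [MInv_alt hw] at hT
  rw [hA] at hS
  have e1 : ∑ t ∈ (Icc 1 (p - 1)).filter (fun t => t % 2 = e % 2),
      (-1) ^ (t - 1) * ((t : ZMod p))⁻¹ =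
      -(-1) ^ e * ∑ t ∈ (Icc 1 (p - 1)).filter (fun t => t % 2 = e % 2), ((t : ZMod p))⁻¹ := by
    rw [Finset.mul_sum]
    apply Finset.sum_congr rfl
    intro t ht
    rw [mem_filter, mem_Icc] at ht
    congr 1
    rcases Nat.even_or_odd e with he | he
    · have h5 : Odd (t - 1) := by
        rw [Nat.odd_iff]
        rw [Nat.even_iff] at he
        omega
      rw [h5.neg_one_pow, he.neg_one_pow]
    · have h5 : Even (t - 1) := by
        rw [Nat.even_iff]
        rw [Nat.odd_iff] at he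
        omega
      rw [h5.neg_one_pow, he.neg_one_pow, neg_neg]
  have e2 : ∑ t ∈ (Icc 1 (p - 1)).filter (fun t => t % 2 = (e + 1) % 2),
      (-1) ^ (t - 1) * ((t : ZMod p))⁻¹ =
      (-1) ^ e * ∑ t ∈ (Icc 1 (p - 1)).filter (fun t => t % 2 = (e + 1) % 2),
        ((t : ZMod p))⁻¹ := by
    rw [Finset.mul_sum]
    apply Finset.sum_congr rfl
    intro t ht
    rw [mem_filter, mem_Icc] at ht
    congr 1
    rcases Nat.even_or_odd e with he | he
    · have h5 : Even (t - 1) := by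
        rw [Nat.even_iff]
        rw [Nat.even_iff] at he
        omega
      rw [h5.neg_one_pow, he.neg_one_pow]
    · have h5 : Odd (t - 1) := by
        rw [Nat.odd_iff]
        rw [Nat.odd_iff] at he
        omega
      rw [h5.neg_one_pow, he.neg_one_pow]
  rw [e1, e2] at hT
  have hsq : ((-1 : ZMod p) ^ e) * (-1) ^ e = 1 := by
    rw [← mul_pow]
    norm_num
  have h7 : (2 : ZMod p) *
      ∑ t ∈ (Icc 1 (p - 1)).filter (fun t => t % 2 = e % 2), ((t : ZMod p))⁻¹ = 0 := by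
    linear_combination hS - (-1) ^ e * hT -
      (∑ t ∈ (Icc 1 (p - 1)).filter (fun t => t % 2 = e % 2), ((t : ZMod p))⁻¹) * hsq +
      (∑ t ∈ (Icc 1 (p - 1)).filter (fun t => t % 2 = (e + 1) % 2), ((t : ZMod p))⁻¹) * hsq
  exact (mul_eq_zero.1 h7).resolve_left h2

theorem inv_sq_parity {p : ℕ} (hp : p.Prime) (h3 : 3 < p) (e : ℕ) :
    ∑ t ∈ (Icc 1 (p - 1)).filter (fun t => t % 2 = e % 2), ((t : ZMod p))⁻¹ ^ 2 = 0 := by
  haveI : Fact p.Prime := ⟨hp⟩
  have h2 := MInv_two (p := p) h3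
  have hA := MInv_pow (p := p) (i := 2) two_pos (by
    have : p ≠ 4 := by
      intro h
      rw [h] at hp
      exact absurd hp (by norm_num)
    omega)
  have hS := MInv_split (p := p) (fun t => ((t : ZMod p))⁻¹ ^ 2) e
  rw [hA] at hS
  have hW := MInv_swap (p := p) h3 (fun t => ((t : ZMod p))⁻¹ ^ 2) (fun t => ((t : ZMod p))⁻¹ ^ 2)
    (fun k _ h => by
      change ((k : ZMod p))⁻¹ ^ 2 = (((p - k : ℕ) : ZMod p))⁻¹ ^ 2
      rw [MInv_cast (by omega), inv_neg, neg_sq]) e
  rw [← hW] at hS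
  have h7 : (2 : ZMod p) *
      ∑ t ∈ (Icc 1 (p - 1)).filter (fun t => t % 2 = e % 2), ((t : ZMod p))⁻¹ ^ 2 = 0 := by
    linear_combination hS
  exact (mul_eq_zero.1 h7).resolve_left h2

end Wief
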