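import Pool.Agent.Lib.Wief.MInv
import Pool.Agent.Lib.Wief.BinV

/-!
# MPole: the sums over Omega_p of the poles

PROOF. `t + j`, `t = 2(u+1)`, `u < M = MM p r`, runs over the numbers `τ ≡ j mod 2` with
`j + 2 ≤ τ ≤ 2M + j`, `2 M = p - 1 - 2r` (`p` odd, `2r < p`), so it is the set of all
`τ ∈ [1, p-1]`, `τ ≡ j (2)`, minus the `τ ≤ j`, minus the `τ > 2M + j`, i.e. (parity: `2M + j + 1 ≢ j`)
`τ ≥ 2M + j + 2 = p - (2r - 1 - j)`, i.e. `τ = p - i`, `1 ≤ i ≤ 2r-1-j`, `i ≢ j mod 2` (`p` odd), where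
`1/τ = -1/i` and `1/τ^2 = 1/i^2`. Use `inv_parity` and `inv_sq_parity`. Finally for
`1 ≤ i ≤ mx r j < p`: `((s_j / i : ℕ) : ZMod p) = s_j * i⁻¹` (`dvd_sc`; `i` is a unit).
-/

set_option autoImplicit false

open Finset

namespace Wief

private theorem MPole_split {R : Type} [AddCommGroup R] {p r j : ℕ} (hodd : p % 2 = 1)
    (hr : 2 * r < p) (hj : j < 2 * r) (F : ℕ → R) :
    ∑ t ∈ (Icc 1 (p - 1)).filter (fun t => t % 2 = j % 2), F t =
      ∑ t ∈ (Icc 1 j).filter (fun t => t % 2 = j % 2), F t +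
        (∑ u : Fin (MM p r), F (2 * ((u : ℕ) + 1) + j) +
          ∑ i ∈ (Icc 1 (2 * r - 1 - j)).filter (fun i => i % 2 ≠ j % 2), F (p - i)) := by
  classical
  have hM : 2 * MM p r + 2 * r + 1 = p := by
    unfold MM
    omega
  have hset : (Icc 1 (p - 1)).filter (fun t => t % 2 = j % 2) =
      (Icc 1 j).filter (fun t => t % 2 = j % 2) ∪
        ((range (MM p r)).image (fun u => 2 * (u + 1) + j) ∪
          ((Icc 1 (2 * r - 1 - j)).filter (fun i => i % 2 ≠ j % 2)).image (fun i => p - i)) := by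
    ext t
    simp only [Finset.mem_filter, Finset.mem_Icc, Finset.mem_union, Finset.mem_image,
      Finset.mem_range]
    constructor
    · rintro ⟨⟨h1, h2⟩, h3⟩
      by_cases c1 : t ≤ j
      · exact Or.inl ⟨⟨h1, c1⟩, h3⟩
      · by_cases c2 : t ≤ 2 * MM p r + j
        · exact Or.inr (Or.inl ⟨(t - j) / 2 - 1, by omega, by omega⟩)
        · exact Or.inr (Or.inr ⟨p - t, ⟨by omega, by omega⟩, by omega⟩)
    · rintro (⟨⟨h1, h2⟩, h3⟩ | ⟨u, hu, rfl⟩ | ⟨i, ⟨⟨h1, h2⟩, h3⟩, rfl⟩)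
      · exact ⟨⟨h1, by omega⟩, h3⟩
      · exact ⟨⟨by omega, by omega⟩, by omega⟩
      · exact ⟨⟨by omega, by omega⟩, by omega⟩
  have hd2 : Disjoint ((range (MM p r)).image (fun u => 2 * (u + 1) + j))
      (((Icc 1 (2 * r - 1 - j)).filter (fun i => i % 2 ≠ j % 2)).image (fun i => p - i)) := by
    rw [Finset.disjoint_left]
    intro t ht ht'
    simp only [Finset.mem_filter, Finset.mem_Icc, Finset.mem_image, Finset.mem_range] at ht ht'
    obtain ⟨u, hu, rfl⟩ := ht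
    obtain ⟨i, ⟨⟨h1, h2⟩, h3⟩, h4⟩ := ht'
    omega
  have hd1 : Disjoint ((Icc 1 j).filter (fun t => t % 2 = j % 2))
      ((range (MM p r)).image (fun u => 2 * (u + 1) + j) ∪
          ((Icc 1 (2 * r - 1 - j)).filter (fun i => i % 2 ≠ j % 2)).image (fun i => p - i)) := by
    rw [Finset.disjoint_left]
    intro t ht ht'
    simp only [Finset.mem_filter, Finset.mem_Icc, Finset.mem_union, Finset.mem_image,
      Finset.mem_range] at ht ht'
    obtain ⟨⟨h1, h2⟩, h3⟩ := ht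
    rcases ht' with ⟨u, hu, h4⟩ | ⟨i, ⟨⟨h4, h5⟩, h6⟩, h7⟩
    · omega
    · omega
  rw [hset, Finset.sum_union hd1, Finset.sum_union hd2]
  congr 1
  congr 1
  · rw [Finset.sum_image (fun a _ b _ (hab : 2 * (a + 1) + j = 2 * (b + 1) + j) => by omega)]
    exact (Fin.sum_univ_eq_sum_range (fun u => F (2 * (u + 1) + j)) (MM p r)).symm
  · refine Finset.sum_image fun a ha b hb hab => ?_
    have ha' := Finset.mem_Icc.1 (Finset.mem_filter.1 ha).1
    have hb' := Finset.mem_Icc.1 (Finset.mem_filter.1 hb).1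
    have hab' : p - a = p - b := hab
    omega

private theorem MPole_odd {p : ℕ} (hp : p.Prime) (h3 : 3 < p) : p % 2 = 1 := by
  rcases hp.eq_two_or_odd with h | h
  · omega
  · exact h

private theorem MPole_quot {p r j k : ℕ} (hp : p.Prime) (hr : 2 * r < p) (hj : j < 2 * r)
    (hk : 1 ≤ k) (hkm : k ≤ mx r j) :
    ((sc r j / k : ℕ) : ZMod p) = (sc r j : ZMod p) * ((k : ZMod p))⁻¹ := by
  have : Fact p.Prime := ⟨hp⟩
  have hkp : k < p := by
    unfold mx at hkm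
    omega
  have hk0 : (k : ZMod p) ≠ 0 := by
    intro h
    have h' := (ZMod.natCast_eq_zero_iff k p).1 h
    exact absurd (Nat.le_of_dvd (by omega) h') (by omega)
  rw [eq_mul_inv_iff_mul_eq₀ hk0, ← Nat.cast_mul, Nat.div_mul_cancel (dvd_sc hk hkm)]

private theorem MPole_neg {p i : ℕ} (hp : p.Prime) (hi : i ≤ p) :
    (((p - i : ℕ) : ZMod p))⁻¹ = -((i : ZMod p))⁻¹ := by
  have : Fact p.Prime := ⟨hp⟩
  rw [Nat.cast_sub hi, ZMod.natCast_self, zero_sub, inv_neg]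

theorem sum_xz {p r j : ℕ} (hw : IsW p) (h3 : 3 < p) (hr : 2 * r < p) (hj : j < 2 * r) :
    ∑ u : Fin (MM p r), (sc r j : ZMod p) * (((2 * ((u : ℕ) + 1) + j : ℕ) : ZMod p))⁻¹ =
      (xz r j : ℤ) := by
  have hp := hw.1
  have : Fact p.Prime := ⟨hp⟩
  have hs := MPole_split (MPole_odd hp h3) hr hj
    (fun t => (sc r j : ZMod p) * ((t : ZMod p))⁻¹)
  rw [← Finset.mul_sum, inv_parity hw h3 j, mul_zero] at hs
  have e1 : ∑ i ∈ (Icc 1 (2 * r - 1 - j)).filter (fun i => i % 2 ≠ j % 2),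
      (sc r j : ZMod p) * (((p - i : ℕ) : ZMod p))⁻¹ =
      -∑ i ∈ (Icc 1 (2 * r - 1 - j)).filter (fun i => i % 2 ≠ j % 2),
        ((sc r j / i : ℕ) : ZMod p) := by
    rw [← Finset.sum_neg_distrib]
    refine Finset.sum_congr rfl fun i hi => ?_
    have hi' := Finset.mem_Icc.1 (Finset.mem_filter.1 hi).1
    rw [MPole_neg hp (by omega), MPole_quot hp hr hj hi'.1 (hi'.2.trans (le_max_right _ _)),
      mul_neg]
  have e2 : ∑ t ∈ (Icc 1 j).filter (fun t => t % 2 = j % 2),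
      (sc r j : ZMod p) * ((t : ZMod p))⁻¹ =
      ∑ t ∈ (Icc 1 j).filter (fun t => t % 2 = j % 2), ((sc r j / t : ℕ) : ZMod p) := by
    refine Finset.sum_congr rfl fun i hi => ?_
    have hi' := Finset.mem_Icc.1 (Finset.mem_filter.1 hi).1
    rw [MPole_quot hp hr hj hi'.1 (hi'.2.trans (le_max_left _ _))]
  rw [e1, e2] at hs
  unfold xz
  rw [Int.cast_add, Int.cast_neg, Int.cast_sum, Int.cast_sum]
  simp only [Int.cast_natCast]
  linear_combination -hs

theorem sum_yz {p r j : ℕ} (hw : IsW p) (h3 : 3 < p) (hr : 2 * r < p) (hj : j < 2 * r) :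
    ∑ u : Fin (MM p r), ((sc r j : ZMod p) * (((2 * ((u : ℕ) + 1) + j : ℕ) : ZMod p))⁻¹) ^ 2 =
      (yz r j : ℤ) := by
  have hp := hw.1
  have : Fact p.Prime := ⟨hp⟩
  have hs := MPole_split (MPole_odd hp h3) hr hj
    (fun t => ((sc r j : ZMod p) * ((t : ZMod p))⁻¹) ^ 2)
  have e0 : ∑ t ∈ (Icc 1 (p - 1)).filter (fun t => t % 2 = j % 2),
      ((sc r j : ZMod p) * ((t : ZMod p))⁻¹) ^ 2 = 0 := by
    simp only [mul_pow]
    rw [← Finset.mul_sum, inv_sq_parity hp h3 j, mul_zero]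
  have e1 : ∑ i ∈ (Icc 1 (2 * r - 1 - j)).filter (fun i => i % 2 ≠ j % 2),
      ((sc r j : ZMod p) * (((p - i : ℕ) : ZMod p))⁻¹) ^ 2 =
      ∑ i ∈ (Icc 1 (2 * r - 1 - j)).filter (fun i => i % 2 ≠ j % 2),
        ((sc r j / i : ℕ) : ZMod p) ^ 2 := by
    refine Finset.sum_congr rfl fun i hi => ?_
    have hi' := Finset.mem_Icc.1 (Finset.mem_filter.1 hi).1
    rw [MPole_neg hp (by omega), MPole_quot hp hr hj hi'.1 (hi'.2.trans (le_max_right _ _))]
    ring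
  have e2 : ∑ t ∈ (Icc 1 j).filter (fun t => t % 2 = j % 2),
      ((sc r j : ZMod p) * ((t : ZMod p))⁻¹) ^ 2 =
      ∑ t ∈ (Icc 1 j).filter (fun t => t % 2 = j % 2), ((sc r j / t : ℕ) : ZMod p) ^ 2 := by
    refine Finset.sum_congr rfl fun i hi => ?_
    have hi' := Finset.mem_Icc.1 (Finset.mem_filter.1 hi).1
    rw [MPole_quot hp hr hj hi'.1 (hi'.2.trans (le_max_left _ _))]
  rw [e0, e1, e2] at hs
  unfold yz
  rw [Int.cast_sub, Int.cast_neg, Int.cast_sum, Int.cast_sum]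
  simp only [Int.cast_pow, Int.cast_natCast]
  linear_combination -hs

end Wief
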