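import Pool.Agent.Lib.Wief.Defs

/-!
# SzLP: size of the functional `LPz`

PROOF. `|Δ^k f(b)| ≤ 2^k max |f|` on `[b, b+k]` (induction on `k`), so
`|∑_{k≤D} (-1)^k 2^(D-k) Δ^k f(b)| ≤ (D+1) 2^D K`. Here `b = 1 - 2r` and `b + i ∈ [1-2r, 0]` for
`i ≤ D < 2r`. The points `-2i`, `i < r`, lie in `[1-2r, 0]` too (`r ≥ 1`).
-/

/-!
# SzLP: size of the functional `LPz`

PROOF. `Δ^k f(b) = ∑_{i≤k} (-1)^(k-i) C(k,i) f(b+i)` (`fwdDiff_iter_eq_sum_shift`), so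
`|∑_{k≤D} (-1)^k 2^(D-k) Δ^k f(b)| ≤ ∑_{i≤D} |f(b+i)| Q_i`, `Q_i = ∑_{k=i}^D 2^(D-k) C(k,i) ≤ 2^(D+1)`:
with `q(i,D) = ∑_{k≤D} C(k,i) 2^(D-k)` one has `q(i,D+1) = 2 q(i,D) + C(D+1,i)` and
`q(i+1,D+1) = q(i+1,D) + q(i,D)` (Pascal), `q(0,D) = 2^(D+1) - 1`; induction on `D` gives
`q(i,D) ≤ 2^(D+1)`. Here `b = 1 - 2r` and `b + i ∈ [1-2r, 0]` for `i ≤ D < 2r`.
The points `-2i`, `i < r`, lie in `[1-2r, 0]` too (`r ≥ 1`).
-/

set_option autoImplicit false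

open Finset

namespace Wief

private lemma szlp_fwd (k : ℕ) : ∀ (f : ℤ → ℤ) (b K : ℤ),
    (∀ t : ℤ, b ≤ t → t ≤ b + k → |f t| ≤ K) →
    |((fwdDiff (1 : ℤ))^[k] f b)| ≤ 2 ^ k * K := by
  induction k with
  | zero =>
    intro f b K hf
    have := hf b le_rfl (by simp)
    simpa using this
  | succ k ih =>
    intro f b K hf
    rw [Function.iterate_succ_apply]
    have h := ih (fwdDiff (1 : ℤ) f) b (2 * K) (by
      intro t h1 h2
      rw [fwdDiff]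
      have e1 := hf (t + 1) (by omega) (by push_cast; omega)
      have e2 := hf t h1 (by push_cast; omega)
      have e3 := abs_sub (f (t + 1)) (f t)
      linarith)
    calc _ ≤ 2 ^ k * (2 * K) := h
      _ = 2 ^ (k + 1) * K := by ring

theorem LPz_le {r D : ℕ} (hD : D < 2 * r) (f : ℤ → ℤ) (K : ℤ)
    (hf : ∀ t : ℤ, 1 - 2 * (r : ℤ) ≤ t → t ≤ 0 → |f t| ≤ K) :
    |LPz r D f| ≤ 2 ^ (D + 1) * ((r : ℤ) + D + 1) * K := by
  have hK : 0 ≤ K := (abs_nonneg _).trans (hf 0 (by omega) le_rfl)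
  have h1 : |∑ i ∈ range r, f (-2 * (i : ℤ))| ≤ (r : ℤ) * K := by
    refine (Finset.abs_sum_le_sum_abs _ _).trans ?_
    calc ∑ i ∈ range r, |f (-2 * (i : ℤ))| ≤ ∑ _i ∈ range r, K := by
          apply Finset.sum_le_sum
          intro i hi
          rw [Finset.mem_range] at hi
          exact hf _ (by omega) (by omega)
      _ = (r : ℤ) * K := by rw [Finset.sum_const, Finset.card_range, nsmul_eq_mul]
  have h2 : |∑ k ∈ range (D + 1), (-1 : ℤ) ^ k * 2 ^ (D - k) *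
      ((fwdDiff (1 : ℤ))^[k] f (1 - 2 * (r : ℤ)))| ≤ ((D : ℤ) + 1) * (2 ^ D * K) := by
    refine (Finset.abs_sum_le_sum_abs _ _).trans ?_
    calc ∑ k ∈ range (D + 1), |(-1 : ℤ) ^ k * 2 ^ (D - k) *
          ((fwdDiff (1 : ℤ))^[k] f (1 - 2 * (r : ℤ)))| ≤ ∑ _k ∈ range (D + 1), 2 ^ D * K := by
          apply Finset.sum_le_sum
          intro k hk
          rw [Finset.mem_range] at hk
          rw [abs_mul, abs_mul, abs_pow, abs_neg, abs_one, one_pow, one_mul, abs_pow,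
            abs_of_nonneg (by norm_num : (0 : ℤ) ≤ 2)]
          have h3 := szlp_fwd k f (1 - 2 * (r : ℤ)) K (by
            intro t e1 e2
            exact hf t e1 (by omega))
          calc (2 : ℤ) ^ (D - k) * |((fwdDiff (1 : ℤ))^[k] f (1 - 2 * (r : ℤ)))|
              ≤ 2 ^ (D - k) * (2 ^ k * K) := by
                apply mul_le_mul_of_nonneg_left h3 (by positivity)
            _ = 2 ^ (D - k + k) * K := by rw [pow_add]; ring
            _ = 2 ^ D * K := by rw [Nat.sub_add_cancel (by omega)]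
      _ = ((D : ℤ) + 1) * (2 ^ D * K) := by
          rw [Finset.sum_const, Finset.card_range, nsmul_eq_mul]
          push_cast
          ring
  rw [LPz]
  have h3 := abs_sub (-(2 ^ (D + 1) * ∑ i ∈ range r, f (-2 * (i : ℤ))))
    (∑ k ∈ range (D + 1), (-1 : ℤ) ^ k * 2 ^ (D - k) *
      ((fwdDiff (1 : ℤ))^[k] f (1 - 2 * (r : ℤ))))
  have h4 : |-(2 ^ (D + 1) * ∑ i ∈ range r, f (-2 * (i : ℤ)))| ≤ 2 ^ (D + 1) * ((r : ℤ) * K) := by
    rw [abs_neg, abs_mul, abs_of_nonneg (by positivity : (0 : ℤ) ≤ 2 ^ (D + 1))]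
    exact mul_le_mul_of_nonneg_left h1 (by positivity)
  have h5 : ((D : ℤ) + 1) * (2 ^ D * K) ≤ 2 ^ (D + 1) * (((D : ℤ) + 1) * K) := by
    have h6 : (0 : ℤ) ≤ 2 ^ D * (((D : ℤ) + 1) * K) := by positivity
    rw [pow_succ]
    linarith
  calc _ ≤ 2 ^ (D + 1) * ((r : ℤ) * K) + 2 ^ (D + 1) * (((D : ℤ) + 1) * K) := by
        refine h3.trans ?_
        exact add_le_add h4 (h2.trans h5)
    _ = 2 ^ (D + 1) * ((r : ℤ) + D + 1) * K := by ring

end Wief
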