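import Pool.Agent.Lib.Wief.SzBin
import Pool.Agent.Lib.Wief.SzLP

/-!
# SzA: size of the entries of `A`

PROOF. `xz_le`, `yz_le`: at most `2r - 1` terms, each at most `s_j` (`s_j^2`) in absolute value.
`A_le`, cases. pole x pole: `j = k`: `yz_le`; `j ≠ k`: `|s_k/(k-j)| ≤ s_k` (`Int.natAbs_ediv..`,
`abs (a / b) ≤ |a|`), so `≤ 4 r s_j s_k`. pole x binomial (`l < m ≤ r`):
`≤ 2^(l+1) 2^(c_l) 2 r s_j + 2^(l+1) (r + l + 1) s_j (l+2) 2^(c_l)`, and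
`2r + (r+l+1)(l+2) ≤ 2r + 2r (r+1) ≤ 20 (r+1)^2`. binomial x binomial (`D = l + l' ≤ 2r - 2`):
`2 · 2^(l+l'+1) (r + l + l' + 1) 2^(c_l) 2^(c_l')` and `3r ≤ 20 (r+1)^2`; `2 · 2^(l+l'+1) = 2^(l+1) 2^(l'+1)`.
`det_le`: Leibniz formula (`Matrix.det_apply`), `Fintype.card (Perm _) = (2r+m)!`; each permutation
gives at most `∏_a 20 (r+1)^2 S_a S_(σ a) = (20 (r+1)^2)^(2r+m) (∏_a S_a)^2`.
-/

set_option autoImplicit false

open Finset

namespace Wief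

private lemma part_le (s J P : ℕ) (q : ℕ → Prop) [DecidablePred q] :
    0 ≤ ∑ t ∈ (Icc 1 J).filter q, ((s / t : ℕ) : ℤ) ^ (P + 1) ∧
    ∑ t ∈ (Icc 1 J).filter q, ((s / t : ℕ) : ℤ) ^ (P + 1) ≤ (J : ℤ) * (s : ℤ) ^ (P + 1) := by
  constructor
  · exact Finset.sum_nonneg fun t _ => by positivity
  · have h1 : ∀ t ∈ (Icc 1 J).filter q, ((s / t : ℕ) : ℤ) ^ (P + 1) ≤ (s : ℤ) ^ (P + 1) := by
      intro t _
      exact pow_le_pow_left₀ (by positivity) (by exact_mod_cast Nat.div_le_self s t) _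
    refine (Finset.sum_le_sum h1).trans ?_
    rw [Finset.sum_const, nsmul_eq_mul]
    refine mul_le_mul_of_nonneg_right ?_ (by positivity)
    have h2 : ((Icc 1 J).filter q).card ≤ J := by
      refine (Finset.card_filter_le _ _).trans ?_
      simp
    exact_mod_cast h2

theorem xz_le {r j : ℕ} (hj : j < 2 * r) : |xz r j| ≤ 2 * (r : ℤ) * sc r j := by
  unfold xz
  obtain ⟨a0, a1⟩ := part_le (sc r j) j 0 (fun t => t % 2 = j % 2)
  obtain ⟨b0, b1⟩ := part_le (sc r j) (2 * r - 1 - j) 0 (fun i => i % 2 ≠ j % 2)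
  simp only [zero_add, pow_one] at a0 a1 b0 b1
  have h3 : (((2 * r - 1 - j : ℕ)) : ℤ) = 2 * (r : ℤ) - 1 - j := by omega
  rw [h3] at b1
  have hs : (0 : ℤ) ≤ sc r j := by positivity
  have hj0 : (0 : ℤ) ≤ j := by positivity
  rw [abs_le]
  constructor <;> nlinarith

theorem yz_le {r j : ℕ} (hj : j < 2 * r) : |yz r j| ≤ 2 * (r : ℤ) * (sc r j : ℤ) ^ 2 := by
  unfold yz
  obtain ⟨a0, a1⟩ := part_le (sc r j) j 1 (fun t => t % 2 = j % 2)
  obtain ⟨b0, b1⟩ := part_le (sc r j) (2 * r - 1 - j) 1 (fun i => i % 2 ≠ j % 2)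
  simp only [one_add_one_eq_two] at a0 a1 b0 b1
  have h3 : (((2 * r - 1 - j : ℕ)) : ℤ) = 2 * (r : ℤ) - 1 - j := by omega
  rw [h3] at b1
  have hs : (0 : ℤ) ≤ (sc r j : ℤ) ^ 2 := by positivity
  have hj0 : (0 : ℤ) ≤ j := by positivity
  rw [abs_le]
  constructor <;> nlinarith

private lemma App_le {r j k : ℕ} (hj : j < 2 * r) (hk : k < 2 * r) :
    |App r j k| ≤ 20 * ((r : ℤ) + 1) ^ 2 * ((sc r j : ℤ) * (sc r k : ℤ)) := by
  have hr : (0 : ℤ) ≤ r := by positivity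
  have hp : (0 : ℤ) ≤ (sc r j : ℤ) * (sc r k : ℤ) := by positivity
  have hc : 4 * (r : ℤ) ≤ 20 * ((r : ℤ) + 1) ^ 2 := by nlinarith
  unfold App
  split_ifs with h
  · subst h
    refine (yz_le hj).trans ?_
    have : 2 * (r : ℤ) * (sc r j : ℤ) ^ 2 = 2 * (r : ℤ) * ((sc r j : ℤ) * (sc r j : ℤ)) := by ring
    rw [this]
    exact mul_le_mul_of_nonneg_right (by linarith) hp
  · refine (abs_sub _ _).trans ?_
    rw [abs_mul, abs_mul]
    have e1 : |(sc r k : ℤ) / ((k : ℤ) - j)| ≤ (sc r k : ℤ) := by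
      refine (Int.abs_ediv_le_abs _ _).trans ?_
      rw [abs_of_nonneg (by positivity)]
    have e2 : |(sc r j : ℤ) / ((k : ℤ) - j)| ≤ (sc r j : ℤ) := by
      refine (Int.abs_ediv_le_abs _ _).trans ?_
      rw [abs_of_nonneg (by positivity)]
    have f1 : |xz r j| * |(sc r k : ℤ) / ((k : ℤ) - j)| ≤ 2 * (r : ℤ) * sc r j * sc r k :=
      mul_le_mul (xz_le hj) e1 (abs_nonneg _) (by positivity)
    have f2 : |xz r k| * |(sc r j : ℤ) / ((k : ℤ) - j)| ≤ 2 * (r : ℤ) * sc r k * sc r j :=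
      mul_le_mul (xz_le hk) e2 (abs_nonneg _) (by positivity)
    calc |xz r j| * |(sc r k : ℤ) / ((k : ℤ) - j)| + |xz r k| * |(sc r j : ℤ) / ((k : ℤ) - j)|
        ≤ 4 * (r : ℤ) * ((sc r j : ℤ) * (sc r k : ℤ)) := by linarith
      _ ≤ _ := mul_le_mul_of_nonneg_right hc hp

private lemma Apl_le {r j l : ℕ} (hj : j < 2 * r) (hl : l < r) :
    |Apl r j l| ≤ 20 * ((r : ℤ) + 1) ^ 2 * ((sc r j : ℤ) * (2 ^ (l + 1) * 2 ^ cc r l)) := by
  unfold Apl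
  refine (abs_add_le _ _).trans ?_
  rw [abs_mul, abs_mul]
  have hph : |ph r l (-(j : ℤ))| ≤ 2 ^ cc r l := ph_le hl (by omega) (by omega)
  have h2 : |((2 : ℤ) ^ (l + 1))| = 2 ^ (l + 1) := abs_of_nonneg (by positivity)
  rw [h2]
  have f1 : 2 ^ (l + 1) * |ph r l (-(j : ℤ))| * |xz r j| ≤
      2 ^ (l + 1) * 2 ^ cc r l * (2 * (r : ℤ) * sc r j) :=
    mul_le_mul (mul_le_mul_of_nonneg_left hph (by positivity)) (xz_le hj) (abs_nonneg _)
      (by positivity)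
  have f2 : |LPz r l (ps r j l)| ≤ 2 ^ (l + 1) * ((r : ℤ) + l + 1) *
      (sc r j * (((l : ℤ) + 2) * 2 ^ cc r l)) :=
    LPz_le (by omega) _ _ (fun t h1 h2 => ps_le hj hl h1 h2)
  have hl0 : (0 : ℤ) ≤ l := by positivity
  have hlr : (l : ℤ) + 1 ≤ r := by exact_mod_cast hl
  have hq : 2 * (r : ℤ) + ((r : ℤ) + l + 1) * ((l : ℤ) + 2) ≤ 20 * ((r : ℤ) + 1) ^ 2 := by
    nlinarith
  have hp : (0 : ℤ) ≤ (sc r j : ℤ) * (2 ^ (l + 1) * 2 ^ cc r l) := by positivity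
  calc 2 ^ (l + 1) * |ph r l (-(j : ℤ))| * |xz r j| + |LPz r l (ps r j l)|
      ≤ (2 * (r : ℤ) + ((r : ℤ) + l + 1) * ((l : ℤ) + 2)) *
          ((sc r j : ℤ) * (2 ^ (l + 1) * 2 ^ cc r l)) := by
        refine (add_le_add f1 f2).trans (le_of_eq ?_)
        ring
    _ ≤ _ := mul_le_mul_of_nonneg_right hq hp

private lemma All_le {r l l' : ℕ} (hl : l < r) (hl' : l' < r) :
    |All r l l'| ≤ 20 * ((r : ℤ) + 1) ^ 2 *
      ((2 ^ (l + 1) * 2 ^ cc r l) * (2 ^ (l' + 1) * 2 ^ cc r l')) := by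
  unfold All
  rw [abs_mul]
  have h2 : |(2 : ℤ)| = 2 := by norm_num
  rw [h2]
  have f2 : |LPz r (l + l') (fun t => ph r l t * ph r l' t)| ≤
      2 ^ (l + l' + 1) * ((r : ℤ) + ((l + l' : ℕ) : ℤ) + 1) * (2 ^ cc r l * 2 ^ cc r l') :=
    LPz_le (by omega) _ _ (fun t h1 h2 => by
      rw [abs_mul]
      exact mul_le_mul (ph_le hl h1 h2) (ph_le hl' h1 h2) (abs_nonneg _) (by positivity))
  have hlr : (l : ℤ) + 1 ≤ r := by exact_mod_cast hl
  have hlr' : (l' : ℤ) + 1 ≤ r := by exact_mod_cast hl'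
  have hr : (0 : ℤ) ≤ r := by positivity
  have hq : (r : ℤ) + ((l + l' : ℕ) : ℤ) + 1 ≤ 20 * ((r : ℤ) + 1) ^ 2 := by
    push_cast
    nlinarith
  have hp : (0 : ℤ) ≤ (2 ^ (l + 1) * 2 ^ cc r l) * (2 ^ (l' + 1) * 2 ^ cc r l') := by positivity
  calc 2 * |LPz r (l + l') (fun t => ph r l t * ph r l' t)|
      ≤ ((r : ℤ) + ((l + l' : ℕ) : ℤ) + 1) *
          ((2 ^ (l + 1) * 2 ^ cc r l) * (2 ^ (l' + 1) * 2 ^ cc r l')) := by
        refine (mul_le_mul_of_nonneg_left f2 (by norm_num)).trans (le_of_eq ?_)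
        ring
    _ ≤ _ := mul_le_mul_of_nonneg_right hq hp

theorem A_le {r m : ℕ} (hm : m ≤ r) (a b : Ix r m) :
    |A r m a b| ≤ 20 * ((r : ℤ) + 1) ^ 2 * (Sz r m a * Sz r m b) := by
  rcases a with j | l <;> rcases b with k | l'
  · have h := App_le j.2 k.2
    exact h
  · have h := Apl_le (l := (l' : ℕ)) j.2 (lt_of_lt_of_le l'.2 hm)
    have e : ((Sz r m (Sum.inr l') : ℕ) : ℤ) = 2 ^ ((l' : ℕ) + 1) * 2 ^ cc r l' := by
      unfold Sz
      push_cast [Sum.elim_inr]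
      rfl
    rw [e]
    exact h
  · have h := Apl_le (l := (l : ℕ)) k.2 (lt_of_lt_of_le l.2 hm)
    have e : ((Sz r m (Sum.inr l) : ℕ) : ℤ) = 2 ^ ((l : ℕ) + 1) * 2 ^ cc r l := by
      unfold Sz
      push_cast [Sum.elim_inr]
      rfl
    rw [e, mul_comm ((2 : ℤ) ^ ((l : ℕ) + 1) * 2 ^ cc r l)]
    exact h
  · have h := All_le (lt_of_lt_of_le l.2 hm) (lt_of_lt_of_le l'.2 hm)
    have e : ((Sz r m (Sum.inr l) : ℕ) : ℤ) = 2 ^ ((l : ℕ) + 1) * 2 ^ cc r l := by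
      unfold Sz
      push_cast [Sum.elim_inr]
      rfl
    have e' : ((Sz r m (Sum.inr l') : ℕ) : ℤ) = 2 ^ ((l' : ℕ) + 1) * 2 ^ cc r l' := by
      unfold Sz
      push_cast [Sum.elim_inr]
      rfl
    rw [e, e']
    exact h

theorem det_le {r m : ℕ} (hm : m ≤ r) :
    |(A r m).det| ≤ (2 * r + m).factorial * (20 * ((r : ℤ) + 1) ^ 2) ^ (2 * r + m) *
      (∏ a, (Sz r m a : ℤ)) ^ 2 := by
  classical
  rw [Matrix.det_apply]
  refine (Finset.abs_sum_le_sum_abs _ _).trans ?_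
  have hcard : Fintype.card (Ix r m) = 2 * r + m := by simp [Ix]
  have h1 : ∀ σ : Equiv.Perm (Ix r m), |Equiv.Perm.sign σ • ∏ i, A r m (σ i) i| ≤
      (20 * ((r : ℤ) + 1) ^ 2) ^ (2 * r + m) * (∏ a, (Sz r m a : ℤ)) ^ 2 := by
    intro σ
    have h2 : |Equiv.Perm.sign σ • ∏ i, A r m (σ i) i| = ∏ i, |A r m (σ i) i| := by
      rw [← Finset.abs_prod]
      rcases Int.units_eq_one_or (Equiv.Perm.sign σ) with h | h <;> rw [h] <;> simp
    rw [h2]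
    calc ∏ i, |A r m (σ i) i|
        ≤ ∏ i, (20 * ((r : ℤ) + 1) ^ 2 * ((Sz r m (σ i) : ℤ) * Sz r m i)) :=
          Finset.prod_le_prod (fun i _ => abs_nonneg _) (fun i _ => A_le hm (σ i) i)
      _ = (20 * ((r : ℤ) + 1) ^ 2) ^ (2 * r + m) * (∏ a, (Sz r m a : ℤ)) ^ 2 := by
          rw [Finset.prod_mul_distrib (f := fun _ => 20 * ((r : ℤ) + 1) ^ 2)
            (g := fun i => (Sz r m (σ i) : ℤ) * Sz r m i), Finset.prod_const,
            Finset.card_univ, hcard, Finset.prod_mul_distrib,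
            Equiv.prod_comp σ (fun a => (Sz r m a : ℤ))]
          ring
  refine (Finset.sum_le_sum fun σ _ => h1 σ).trans (le_of_eq ?_)
  rw [Finset.sum_const, Finset.card_univ, Fintype.card_perm, hcard, nsmul_eq_mul]
  ring

end Wief
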