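import Pool.Agent.Lib.Wief.Defs

/-!
# SzD: the derivative of a binomial at an integer

PROOFS. `dd_rec`: `D(N,l) = ∑_{k=1}^l (-1)^(k-1) C(N,l-k)/k` satisfies
`(l+1) D(N,l+1) = C(N,l) + (N-l) D(N,l)`: write `l+1 = (l+1-k) + k` and use
`(i+1) C(N,i+1) = (N-i) C(N,i)`, `i = l-k`: the part with `(l+1-k)/k` is
`∑_{k=1}^{l} (-1)^(k-1) (N-l+k)/k C(N,l-k) = (N-l) D(N,l) + ∑_{k=1}^l (-1)^(k-1) C(N,l-k)`, and the part
with `k/k` is `∑_{k=1}^{l+1} (-1)^(k-1) C(N,l+1-k)`; the two alternating sums add up to `C(N,l)`.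
`dd_le`: by induction on `l`, the stronger statement: if `0 ≤ N < l` then `|D(N,l)| ≤ 1`, otherwise
`|D(N,l)| ≤ l |C(N,l)|`. Case otherwise (then also `N < 0` or `N ≥ l-1`, and `|N-l+1| ≥ 1`):
`l |D(N,l)| ≤ |C(N,l-1)| + |N-l+1| (l-1) |C(N,l-1)| ≤ l |N-l+1| |C(N,l-1)| = l^2 |C(N,l)|`; case `N = l-1`:
`l D = C(N,l-1) = 1`; case `0 ≤ N < l-1`: `C(N,l-1) = 0`, `|N-l+1| ≤ l`.
-/

set_option autoImplicit false

open Finset

namespace Wief

/-- `D(N,l)`, the derivative of the binomial `C(x, l)` at `N` -/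
noncomputable def dd (N : ℤ) (l : ℕ) : ℚ :=
  ∑ k ∈ Icc 1 l, (-1 : ℚ) ^ (k - 1) * (Ring.choose N (l - k) : ℤ) / k

theorem succ_choose (N : ℤ) (i : ℕ) :
    ((i : ℤ) + 1) * Ring.choose N (i + 1) = (N - i) * Ring.choose N i := by
  have h1 := Ring.descPochhammer_eq_factorial_smul_choose N (i + 1)
  have h0 := Ring.descPochhammer_eq_factorial_smul_choose N i
  rw [← Polynomial.eval_eq_smeval, descPochhammer_succ_right, Polynomial.eval_mul,
    Polynomial.eval_sub, Polynomial.eval_X, Polynomial.eval_natCast] at h1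
  rw [← Polynomial.eval_eq_smeval] at h0
  rw [h0, nsmul_eq_mul, nsmul_eq_mul, Nat.factorial_succ] at h1
  push_cast at h1
  have hf : ((i.factorial : ℕ) : ℤ) ≠ 0 := by exact_mod_cast i.factorial_ne_zero
  apply mul_left_cancel₀ hf
  linear_combination -h1

private theorem szd_dd (N : ℤ) (l : ℕ) :
    dd N l = ∑ j ∈ range l, (-1 : ℚ) ^ j * (Ring.choose N (l - 1 - j) : ℤ) / ((j : ℚ) + 1) := by
  unfold dd
  rw [show Icc 1 l = Ico 1 (l + 1) from by ext x; simp only [mem_Icc, mem_Ico]; omega,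
    Finset.sum_Ico_eq_sum_range]
  simp only [Nat.add_sub_cancel]
  refine Finset.sum_congr rfl fun j _ => ?_
  rw [Nat.add_sub_cancel_left, show l - (1 + j) = l - 1 - j from by omega]
  push_cast
  rw [add_comm (1 : ℚ) (j : ℚ)]

private theorem szd_term (N : ℤ) (l j : ℕ) (hj : j < l) :
    ((l : ℚ) + 1) * ((-1 : ℚ) ^ j * (Ring.choose N (l - j) : ℤ) / ((j : ℚ) + 1)) =
      ((N : ℚ) - l) * ((-1 : ℚ) ^ j * (Ring.choose N (l - 1 - j) : ℤ) / ((j : ℚ) + 1)) +
        (-1 : ℚ) ^ j * (Ring.choose N (l - 1 - j) : ℤ) +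
        (-1 : ℚ) ^ j * (Ring.choose N (l - j) : ℤ) := by
  obtain ⟨i, rfl⟩ : ∃ i, l = j + i + 1 := ⟨l - j - 1, by omega⟩
  rw [show j + i + 1 - j = i + 1 from by omega, show j + i + 1 - 1 - j = i from by omega]
  have h := succ_choose N i
  have hq : ((i : ℚ) + 1) * ((Ring.choose N (i + 1) : ℤ) : ℚ) =
      ((N : ℚ) - i) * ((Ring.choose N i : ℤ) : ℚ) := by exact_mod_cast h
  have hj0 : ((j : ℚ) + 1) ≠ 0 := by positivity
  push_cast
  field_simp
  linear_combination hq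

theorem dd_rec (N : ℤ) (l : ℕ) :
    ((l : ℚ) + 1) * dd N (l + 1) = (Ring.choose N l : ℤ) + ((N : ℚ) - l) * dd N l := by
  rw [szd_dd, szd_dd, Nat.add_sub_cancel, Finset.mul_sum, Finset.sum_range_succ]
  rw [Finset.sum_congr rfl fun j hj => szd_term N l j (Finset.mem_range.1 hj)]
  rw [Finset.sum_add_distrib, Finset.sum_add_distrib, ← Finset.mul_sum, Nat.sub_self]
  have hl0 : ((l : ℚ) + 1) ≠ 0 := by positivity
  have hlast : ((l : ℚ) + 1) * ((-1 : ℚ) ^ l * ((Ring.choose N 0 : ℤ) : ℚ) / ((l : ℚ) + 1)) =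
      (-1 : ℚ) ^ l * ((Ring.choose N 0 : ℤ) : ℚ) := by
    field_simp
  rw [hlast]
  have h1 : ∑ j ∈ range l, (-1 : ℚ) ^ j * ((Ring.choose N (l - j) : ℤ) : ℚ) +
      (-1 : ℚ) ^ l * ((Ring.choose N 0 : ℤ) : ℚ) =
      ∑ j ∈ range (l + 1), (-1 : ℚ) ^ j * ((Ring.choose N (l - j) : ℤ) : ℚ) := by
    rw [Finset.sum_range_succ, Nat.sub_self]
  have h2 : ∑ j ∈ range (l + 1), (-1 : ℚ) ^ j * ((Ring.choose N (l - j) : ℤ) : ℚ) =
      ((Ring.choose N l : ℤ) : ℚ) -
        ∑ j ∈ range l, (-1 : ℚ) ^ j * ((Ring.choose N (l - 1 - j) : ℤ) : ℚ) := by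
    rw [Finset.sum_range_succ', pow_zero, one_mul, Nat.sub_zero, add_comm, sub_eq_add_neg,
      ← Finset.sum_neg_distrib]
    congr 1
    refine Finset.sum_congr rfl fun j _ => ?_
    rw [show l - (j + 1) = l - 1 - j from by omega, pow_succ]
    ring
  linear_combination h1 + h2

private theorem szd_zero (N : ℤ) (l : ℕ) (h0 : 0 ≤ N) (h1 : N < l) : Ring.choose N l = 0 := by
  obtain ⟨n, rfl⟩ := Int.eq_ofNat_of_zero_le h0
  have hn : n < l := by exact_mod_cast h1
  have := Ring.choose_natCast (R := ℤ) n l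
  rw [Nat.choose_eq_zero_of_lt hn] at this
  simpa using this

private theorem szd_self (l : ℕ) : Ring.choose (l : ℤ) l = 1 := by
  have := Ring.choose_natCast (R := ℤ) l l
  rw [Nat.choose_self] at this
  simpa using this

private theorem szd_abs (N : ℤ) (l : ℕ) :
    ((l : ℚ) + 1) * |dd N (l + 1)| ≤ |((Ring.choose N l : ℤ) : ℚ)| + |(N : ℚ) - l| * |dd N l| := by
  have h := dd_rec N l
  have hl : (0 : ℚ) ≤ (l : ℚ) + 1 := by positivity
  calc ((l : ℚ) + 1) * |dd N (l + 1)| = |((l : ℚ) + 1) * dd N (l + 1)| := by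
        rw [abs_mul, abs_of_nonneg hl]
    _ = |((Ring.choose N l : ℤ) : ℚ) + ((N : ℚ) - l) * dd N l| := by rw [h]
    _ ≤ |((Ring.choose N l : ℤ) : ℚ)| + |((N : ℚ) - l) * dd N l| := abs_add_le _ _
    _ = _ := by rw [abs_mul]

private theorem szd_strong (N : ℤ) (l : ℕ) :
    (0 ≤ N ∧ N < l → |dd N l| ≤ 1) ∧
      (¬ (0 ≤ N ∧ N < l) → |dd N l| ≤ l * |((Ring.choose N l : ℤ) : ℚ)|) := by
  induction l with
  | zero =>
    have h0 : dd N 0 = 0 := by unfold dd; simp
    rw [h0]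
    constructor
    · intro _; simp
    · intro _; simp
  | succ l ih =>
    have habs := szd_abs N l
    have hl : (0 : ℚ) < (l : ℚ) + 1 := by positivity
    have hl' : (0 : ℚ) ≤ (l : ℚ) := by positivity
    constructor
    · rintro ⟨h0, h1⟩
      rcases lt_or_ge N l with h2 | h2
      · have hz := szd_zero N l h0 h2
        have hd := ih.1 ⟨h0, h2⟩
        rw [hz] at habs
        have h3 : |(N : ℚ) - l| ≤ l := by
          rw [abs_le]
          have h4 : (0 : ℚ) ≤ (N : ℚ) := by exact_mod_cast h0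
          have h5 : (N : ℚ) < (l : ℚ) := by exact_mod_cast h2
          constructor <;> linarith
        have h6 : |(N : ℚ) - l| * |dd N l| ≤ l * 1 :=
          mul_le_mul h3 hd (abs_nonneg _) hl'
        rw [Int.cast_zero, abs_zero, zero_add] at habs
        have h7 : ((l : ℚ) + 1) * |dd N (l + 1)| ≤ ((l : ℚ) + 1) * 1 := by linarith
        exact le_of_mul_le_mul_left h7 hl
      · have hN : N = l := by
          push_cast at h1
          omega
        subst hN
        rw [szd_self, Int.cast_one, abs_one, Int.cast_natCast, sub_self, abs_zero, zero_mul,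
          add_zero] at habs
        have h7 : ((l : ℚ) + 1) * |dd (l : ℤ) (l + 1)| ≤ ((l : ℚ) + 1) * 1 := by linarith
        exact le_of_mul_le_mul_left h7 hl
    · intro hn
      have hn' : ¬ (0 ≤ N ∧ N < l) := fun h => hn ⟨h.1, by push_cast; omega⟩
      have hd := ih.2 hn'
      have h1 : (1 : ℚ) ≤ |(N : ℚ) - l| := by
        have h2 : (1 : ℤ) ≤ |N - l| := by
          have h3 : N < 0 ∨ (l : ℤ) + 1 ≤ N := by
            by_contra hc
            push Not at hc
            exact hn ⟨hc.1, by push_cast; omega⟩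
          rcases h3 with h3 | h3
          · rw [abs_of_neg (by omega)]; omega
          · rw [abs_of_pos (by omega)]; omega
        exact_mod_cast h2
      have hsc := succ_choose N l
      have hq : ((l : ℚ) + 1) * ((Ring.choose N (l + 1) : ℤ) : ℚ) =
          ((N : ℚ) - l) * ((Ring.choose N l : ℤ) : ℚ) := by exact_mod_cast hsc
      have hqa : ((l : ℚ) + 1) * |((Ring.choose N (l + 1) : ℤ) : ℚ)| =
          |(N : ℚ) - l| * |((Ring.choose N l : ℤ) : ℚ)| := by
        rw [← abs_mul, ← hq, abs_mul, abs_of_pos hl]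
      have hc0 : 0 ≤ |((Ring.choose N l : ℤ) : ℚ)| := abs_nonneg _
      have h2 : |(N : ℚ) - l| * |dd N l| ≤
          |(N : ℚ) - l| * (l * |((Ring.choose N l : ℤ) : ℚ)|) :=
        mul_le_mul_of_nonneg_left hd (abs_nonneg _)
      have h3 : |((Ring.choose N l : ℤ) : ℚ)| ≤
          |(N : ℚ) - l| * |((Ring.choose N l : ℤ) : ℚ)| := by
        nlinarith
      have h4 : ((l : ℚ) + 1) * |dd N (l + 1)| ≤
          ((l : ℚ) + 1) * (((l : ℚ) + 1) * |((Ring.choose N (l + 1) : ℤ) : ℚ)|) := by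
        rw [hqa]
        nlinarith
      have h5 := le_of_mul_le_mul_left h4 hl
      push_cast
      exact h5

theorem dd_le (N : ℤ) (l : ℕ) : |dd N l| ≤ l * |((Ring.choose N l : ℤ) : ℚ)| + 1 := by
  obtain ⟨h1, h2⟩ := szd_strong N l
  have h3 : (0 : ℚ) ≤ l * |((Ring.choose N l : ℤ) : ℚ)| := by positivity
  by_cases h : 0 ≤ N ∧ N < l
  · have := h1 h
    linarith
  · have := h2 h
    linarith

end Wief
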