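import Pool.Agent.Lib.Wief.BinV
import Pool.Agent.Lib.Wief.SzD

/-!
# SzBin: sizes of the binomials on `E = [1-2r, 0]`

PROOFS. `C_neg`: `C(-s, i) = (-1)^i C(s+i-1, i)` for `s ≥ 1` (`Ring.choose_neg`-like; or by induction /
Pascal). `ph_le`: `N = t + c_l ≤ c_l`. If `N ≥ 0`: `0 ≤ C(N, l) ≤ 2^N`. If `N = -s < 0` then
`s ≤ 2r-1-c_l = r-1-l/2` and `|C(N,l)| = C(s+l-1, l) ≤ 2^(s+l-1) ≤ 2^(r-2-l/2+l) ≤ 2^(r+l/2)`
(`l ≤ 2 (l/2) + 1`). (`l = 0`: the value is `1`.)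
`ps_le`: `t ≠ -j`: `ps_mul` and `|t+j| ≥ 1` give `|ps| ≤ 2 s_j 2^(c_l)`. `t = -j`: `C(-1,k-1) = (-1)^(k-1)`,
`s_j/k` exact (`dvd_sc`, `k ≤ l ≤ mx`): `ps(-j) = s_j D(c_l - j, l)` (`dd` of `SzD`), and
`|C(c_l - j, l)| = |ph(-j)| ≤ 2^(c_l)`, so `|ps(-j)| ≤ s_j (l 2^(c_l) + 1)` by `dd_le`.
-/

set_option autoImplicit false

open Finset

namespace Wief

theorem C_neg (s i : ℕ) (hs : 1 ≤ s) :
    Ring.choose (-(s : ℤ)) i = (-1) ^ i * ((s + i - 1).choose i : ℕ) := by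
  rw [Ring.choose_neg]
  have h1 : (s : ℤ) + i - 1 = ((s + i - 1 : ℕ) : ℤ) := by
    rw [Nat.cast_sub (by omega)]
    push_cast
    ring
  rw [h1, Ring.choose_natCast, Units.smul_def, smul_eq_mul, Int.negOnePow_def, zpow_natCast]
  push_cast
  ring

private theorem SzBin_two (n l : ℕ) : n.choose l ≤ 2 ^ n := by
  rcases le_or_gt l n with h | h
  · rw [← Nat.sum_range_choose n]
    exact single_le_sum (f := fun m => n.choose m) (fun _ _ => Nat.zero_le _)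
      (mem_range.2 (by omega))
  · rw [Nat.choose_eq_zero_of_lt h]
    exact Nat.zero_le _

theorem ph_le {r l : ℕ} (hl : l < r) {t : ℤ} (h1 : 1 - 2 * (r : ℤ) ≤ t) (h2 : t ≤ 0) :
    |ph r l t| ≤ 2 ^ cc r l := by
  unfold ph
  rcases le_or_gt 0 (t + (cc r l : ℤ)) with h | h
  · obtain ⟨n, hn⟩ := Int.eq_ofNat_of_zero_le h
    rw [hn, Ring.choose_natCast]
    have h3 : n ≤ cc r l := by omega
    have h4 : n.choose l ≤ 2 ^ cc r l :=
      (SzBin_two n l).trans (Nat.pow_le_pow_right (by norm_num) h3)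
    rw [abs_of_nonneg (by positivity)]
    exact_mod_cast h4
  · obtain ⟨s, hs⟩ : ∃ s : ℕ, t + (cc r l : ℤ) = -(s : ℤ) :=
      ⟨(-(t + (cc r l : ℤ))).toNat, by omega⟩
    have hs1 : 1 ≤ s := by omega
    rw [hs, C_neg s l hs1, abs_mul, abs_pow, abs_neg, abs_one, one_pow, one_mul,
      abs_of_nonneg (by positivity)]
    have h3 : s + l - 1 ≤ cc r l := by
      unfold cc at hs ⊢
      omega
    have h4 : (s + l - 1).choose l ≤ 2 ^ cc r l :=
      (SzBin_two _ l).trans (Nat.pow_le_pow_right (by norm_num) h3)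
    exact_mod_cast h4

private theorem SzBin_dd {r j l : ℕ} (hj : j < 2 * r) (hl : l < r) :
    ((ps r j l (-(j : ℤ)) : ℤ) : ℚ) = sc r j * dd ((cc r l : ℤ) - j) l := by
  unfold ps dd
  rw [Int.cast_sum, mul_sum]
  refine sum_congr rfl fun k hk => ?_
  rw [mem_Icc] at hk
  have hk0 : (k : ℚ) ≠ 0 := by
    have : k ≠ 0 := by omega
    exact_mod_cast this
  have h1 : -(j : ℤ) + j - 1 = -((1 : ℕ) : ℤ) := by push_cast; ring
  have h2 : (1 + (k - 1) - 1).choose (k - 1) = 1 := by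
    rw [show 1 + (k - 1) - 1 = k - 1 by omega, Nat.choose_self]
  have h3 : k ∣ sc r j := dvd_sc hk.1 (by have := le_mx hj; omega)
  have h4 : (((sc r j / k : ℕ) : ℤ) : ℚ) = (sc r j : ℚ) / k := by
    rw [Int.cast_natCast, Nat.cast_div h3 hk0]
  rw [h1, C_neg 1 (k - 1) le_rfl, h2, Int.cast_mul, Int.cast_mul, h4]
  push_cast
  ring

theorem ps_le {r j l : ℕ} (hj : j < 2 * r) (hl : l < r) {t : ℤ} (h1 : 1 - 2 * (r : ℤ) ≤ t)
    (h2 : t ≤ 0) : |ps r j l t| ≤ sc r j * (((l : ℤ) + 2) * 2 ^ cc r l) := by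
  have hsc : (0 : ℤ) ≤ sc r j := Int.natCast_nonneg _
  have hpj : |ph r l (-(j : ℤ))| ≤ 2 ^ cc r l := ph_le hl (by omega) (by omega)
  have h2p : (1 : ℤ) ≤ 2 ^ cc r l := one_le_pow₀ (by norm_num)
  by_cases htj : t + j = 0
  · have ht : t = -(j : ℤ) := by omega
    subst ht
    have h3 := SzBin_dd hj hl
    have h4 := dd_le ((cc r l : ℤ) - j) l
    have h5 : Ring.choose ((cc r l : ℤ) - j) l = ph r l (-(j : ℤ)) := by
      unfold ph
      congr 1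
      ring
    rw [h5] at h4
    have h6 : |((ph r l (-(j : ℤ)) : ℤ) : ℚ)| ≤ 2 ^ cc r l := by exact_mod_cast hpj
    have h7 : |((ps r j l (-(j : ℤ)) : ℤ) : ℚ)| ≤ sc r j * (((l : ℚ) + 2) * 2 ^ cc r l) := by
      rw [h3, abs_mul, abs_of_nonneg (by positivity : (0 : ℚ) ≤ (sc r j : ℚ))]
      refine mul_le_mul_of_nonneg_left (h4.trans ?_) (by positivity)
      have h8 : (1 : ℚ) ≤ 2 ^ cc r l := by exact_mod_cast h2p
      have h9 : (l : ℚ) * |((ph r l (-(j : ℤ)) : ℤ) : ℚ)| ≤ l * 2 ^ cc r l :=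
        mul_le_mul_of_nonneg_left h6 (by positivity)
      linarith
    exact_mod_cast h7
  · have h3 := ps_mul hj hl.le t
    have h4 : 1 ≤ |t + j| := Int.one_le_abs htj
    have h5 : |ps r j l t| ≤ |t + j| * |ps r j l t| :=
      le_mul_of_one_le_left (abs_nonneg _) h4
    have hpt : |ph r l t| ≤ 2 ^ cc r l := ph_le hl h1 h2
    rw [← abs_mul, h3, abs_mul, abs_of_nonneg hsc] at h5
    refine h5.trans (mul_le_mul_of_nonneg_left ?_ hsc)
    have h6 := abs_sub (ph r l t) (ph r l (-(j : ℤ)))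
    have h7 : (0 : ℤ) ≤ l * 2 ^ cc r l := by positivity
    linarith

end Wief
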